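import Mathlib

/-!
Almost inclusion, the strong intersection property, pseudo-intersections; the index type is the
cardinal `κ` seen as a well-ordered type, and `U` is a `κ`-complete ultrafilter on it with a
function `π` that is the least function above all constants modulo `U`.
-/

open Cardinal Set Filter

namespace Pool.Agent.EFF

universe u

/-- `A ⊆* B`: fewer than `κ` elements of `A` are outside `B`. -/
def AlmostSub {α : Type u} (κ : Cardinal.{u}) (A B : Set α) : Prop := #(↥(A \ B)) < κ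

/-- The strong intersection property: fewer than `κ` members always meet in a set of size `κ`. -/
def SIP {α : Type u} (κ : Cardinal.{u}) (F : Set (Set α)) : Prop :=
  ∀ G : Set (Set α), G ⊆ F → #G < κ → #(↥(⋂₀ G)) = κ

/-- `F` has a pseudo-intersection of size `κ`. -/
def HasPI {α : Type u} (κ : Cardinal.{u}) (F : Set (Set α)) : Prop :=
  ∃ A : Set α, #A = κ ∧ ∀ B ∈ F, AlmostSub κ A B

variable {α : Type u} [LinearOrder α] {κ : Cardinal.{u}}

/-- Standing assumptions on the index type: it has size `κ`, `κ` is regular uncountable and all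
initial segments have size less than `κ`. -/
structure Idx (α : Type u) [LinearOrder α] (κ : Cardinal.{u}) : Prop where
  unc : ℵ₀ < κ
  reg : κ.IsRegular
  card : #α = κ
  small : ∀ a : α, #(Iio a) < κ

theorem Idx.smallc (h : Idx α κ) (a : α) : #(Iic a) < κ := by
  have : (Iic a) = insert a (Iio a) := by
    ext x; simp [le_iff_lt_or_eq, or_comm]
  rw [this]
  exact (mk_insert_le).trans_lt (add_lt_of_lt h.unc.le (h.small a) (one_lt_aleph0.trans h.unc))

/-- Fewer than `κ` elements are bounded. -/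
theorem Idx.bdd (h : Idx α κ) (s : Set α) (hs : #s < κ) : ∃ b, ∀ a ∈ s, a < b := by
  by_contra hcon
  push Not at hcon
  have hcov : (Set.univ : Set α) ⊆ ⋃ a ∈ s, Iic a := by
    intro b _
    obtain ⟨a, ha, hab⟩ := hcon b
    simp only [mem_iUnion, mem_Iic]
    exact ⟨a, ha, hab⟩
  have h2 : #(↥(⋃ a ∈ s, Iic a)) < κ := by
    rw [Cardinal.card_biUnion_lt_iff_forall_of_isRegular h.reg hs]
    intro a _
    exact h.smallc a
  have h3 : #α ≤ #(↥(⋃ a ∈ s, Iic a)) := by
    rw [← mk_univ]
    exact mk_le_mk_of_subset hcov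
  rw [h.card] at h3
  exact absurd h2 (not_lt.mpr h3)

theorem Idx.ne (h : Idx α κ) : Nonempty α := by
  rw [← mk_ne_zero_iff, h.card]
  exact (aleph0_pos.trans h.unc).ne'

/-- A set that is unbounded has size `κ`. -/
theorem Idx.card_of_unbdd (h : Idx α κ) (s : Set α) (hs : ∀ b, ∃ a ∈ s, b ≤ a) : #s = κ := by
  rcases lt_or_eq_of_le (h.card ▸ mk_set_le s : #s ≤ κ) with h1 | h1
  · obtain ⟨b, hb⟩ := h.bdd s h1
    obtain ⟨a, ha, hab⟩ := hs b
    exact absurd (hb a ha) (not_lt.mpr hab)
  · exact h1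

/-- A set of size `κ` is unbounded. -/
theorem Idx.unbdd_of_card (h : Idx α κ) (s : Set α) (hs : #s = κ) (b : α) : ∃ a ∈ s, b < a := by
  by_contra hcon
  push Not at hcon
  have : s ⊆ Iic b := fun a ha => hcon a ha
  exact absurd (h.smallc b) (not_lt.mpr (hs ▸ mk_le_mk_of_subset this))

/-- A union of fewer than `κ` sets of size less than `κ`. -/
theorem Idx.small_biUnion (h : Idx α κ) {ι β : Type u} (s : Set ι) (hs : #s < κ) (t : ι → Set β)
    (ht : ∀ i ∈ s, #(t i) < κ) : #(↥(⋃ i ∈ s, t i)) < κ := by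
  rw [Cardinal.card_biUnion_lt_iff_forall_of_isRegular h.reg hs]
  exact ht

theorem Idx.small_union (h : Idx α κ) {β : Type u} (s t : Set β) (hs : #s < κ) (ht : #t < κ) :
    #(↥(s ∪ t)) < κ :=
  (mk_union_le s t).trans_lt (add_lt_of_lt h.unc.le hs ht)

/-- Removing fewer than `κ` elements from a set of size `κ` leaves a set of size `κ`. -/
theorem Idx.card_diff (h : Idx α κ) {β : Type u} (s t : Set β) (hs : #s = κ) (ht : #(↥(s \ t)) < κ) :
    #(↥(s ∩ t)) = κ := by
  have h1 : #s ≤ #(↥(s ∩ t)) + #(↥(s \ t)) := by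
    conv_lhs => rw [← inter_union_sdiff s t]
    exact mk_union_le _ _
  rcases lt_or_eq_of_le (hs ▸ mk_le_mk_of_subset inter_subset_left : #(↥(s ∩ t)) ≤ κ) with h2 | h2
  · exact absurd (add_lt_of_lt h.unc.le h2 ht) (not_lt.mpr (hs ▸ h1))
  · exact h2

theorem AlmostSub.trans (h : Idx α κ) {β : Type u} {A B C : Set β} (h1 : AlmostSub κ A B)
    (h2 : AlmostSub κ B C) : AlmostSub κ A C := by
  refine (mk_le_mk_of_subset ?_).trans_lt (h.small_union _ _ h1 h2)
  intro x hx
  by_cases hB : x ∈ B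
  · exact Or.inr ⟨hB, hx.2⟩
  · exact Or.inl ⟨hx.1, hB⟩

theorem AlmostSub.of_subset (h : Idx α κ) {β : Type u} {A B : Set β} (h1 : A ⊆ B) :
    AlmostSub κ A B := by
  have : A \ B = ∅ := sdiff_eq_empty.mpr h1
  rw [AlmostSub, this]
  rw [mk_eq_zero]
  exact aleph0_pos.trans h.unc

end Pool.Agent.EFF
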