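import Pool.Agent.Lib.MP_eff308_lc.EA.Inacc

/-!
Almost disjoint coding (Solovay): every subset of a small family of subsets of `κ` is internal
to the ultrapower.
-/

open Cardinal Set Filter

namespace Pool.Agent.EFF

universe u

variable {α : Type u} [LinearOrder α] {κ : Cardinal.{u}} {U : Ultrafilter α} {π : α → α}

/-- The trace of `y` below `c`. -/
def tr (c : α) (y : Set α) : Set (Iio c) := Subtype.val ⁻¹' y

theorem mem_tr {c : α} {y : Set α} {z : Iio c} : z ∈ tr c y ↔ z.1 ∈ y := Iff.rfl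

theorem tr_inter_of_lt {c b : α} (h : c ≤ b) (y : Set α) : tr c (y ∩ Iio b) = tr c y := by
  ext z
  simp only [mem_tr, mem_inter_iff, mem_Iio, and_iff_left_iff_imp]
  intro _
  exact lt_of_lt_of_le z.2 h

/-- The coding space: pairs of a level and a set of subsets of that level. -/
abbrev CS (α : Type u) [LinearOrder α] : Type u := Σ c : α, Set (Set (Iio c))

theorem card_CS (hI : Idx α κ) (hsl : ∀ μ < κ, (2 : Cardinal.{u}) ^ μ < κ) : #(CS α) = κ := by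
  apply le_antisymm
  · rw [mk_sigma]
    refine (Cardinal.sum_le_mk_mul_iSup _).trans ?_
    rw [hI.card]
    refine mul_le_of_le hI.unc.le le_rfl ?_
    refine ciSup_le' ?_
    intro c
    rw [mk_set, mk_set]
    exact (hsl _ (hsl _ (hI.small c))).le
  · rw [← hI.card]
    exact mk_le_of_injective (f := fun c : α => (⟨c, ∅⟩ : CS α)) (fun a b h => by
      simpa using congrArg Sigma.fst h)

/-- A set of size `κ` of the coding space contains pairs at cofinally many levels. -/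
theorem CS_unbdd (hI : Idx α κ) (hsl : ∀ μ < κ, (2 : Cardinal.{u}) ^ μ < κ) (P : Set (CS α))
    (hP : #P = κ) (ξ : α) : ∃ p ∈ P, ξ < p.1 := by
  by_contra hcon
  push Not at hcon
  have h1 : P ⊆ ⋃ c ∈ Iic ξ, range (fun s : Set (Set (Iio c)) => (⟨c, s⟩ : CS α)) := by
    intro p hp
    simp only [mem_iUnion]
    exact ⟨p.1, hcon p hp, p.2, rfl⟩
  have h2 : #(↥(⋃ c ∈ Iic ξ, range (fun s : Set (Set (Iio c)) => (⟨c, s⟩ : CS α)))) < κ := by
    refine hI.small_biUnion _ (hI.smallc ξ) _ ?_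
    intro c _
    refine mk_range_le.trans_lt ?_
    rw [mk_set, mk_set]
    exact hsl _ (hsl _ (hI.small c))
  exact absurd (mk_le_mk_of_subset h1) (not_le.mpr (hP ▸ h2))

/-- Decoding: a set of size `κ` of pairs `(c, s)` deciding `y ∩ c ∈ s` according to `B`. -/
theorem decode (h : Meas κ U π) (hI : Idx α κ) (hsl : ∀ μ < κ, (2 : Cardinal.{u}) ^ μ < κ)
    {L : Type u} (I B : Set L) (y : L → Set α) (P : Set (CS α)) (hP : #P = κ)
    (hdec : ∀ k ∈ I, ∃ ξ, ∀ p ∈ P, ξ ≤ p.1 → (tr p.1 (y k) ∈ p.2 ↔ k ∈ B)) :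
    ∃ X : α → Set (Set α), ∀ k ∈ I,
      (k ∈ B → ∀ᶠ x in (U : Filter α), y k ∩ Iio (π x) ∈ X x) ∧
      (k ∉ B → ∀ᶠ x in (U : Filter α), y k ∩ Iio (π x) ∉ X x) := by
  refine ⟨fun x => {w | ∀ ξ < π x, ∃ c, (∃ p ∈ P, ∃ h : p.1 = c, tr p.1 w ∈ p.2) ∧
    ξ < c ∧ c < π x}, ?_⟩
  intro k hk
  obtain ⟨ξ, hξ⟩ := hdec k hk
  constructor
  · intro hB
    have h1 : ∀ η, ∃ c ∈ {c | ∃ p ∈ P, ∃ h : p.1 = c, tr p.1 (y k) ∈ p.2}, η < c := by
      intro η
      obtain ⟨p, hp, hp2⟩ := CS_unbdd hI hsl P hP (max ξ η)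
      refine ⟨p.1, ⟨p, hp, rfl, ?_⟩, lt_of_le_of_lt (le_max_right _ _) hp2⟩
      exact (hξ p hp (lt_of_le_of_lt (le_max_left _ _) hp2).le).mpr hB
    filter_upwards [h.lim _ h1] with x hx
    intro η hη
    obtain ⟨c, ⟨p, hp, hpc, hp2⟩, hc1, hc2⟩ := hx η hη
    refine ⟨c, ⟨p, hp, hpc, ?_⟩, hc1, hc2⟩
    rw [tr_inter_of_lt (by rw [hpc]; exact hc2.le)]
    exact hp2
  · intro hB
    filter_upwards [h.above ξ] with x hx hcon
    obtain ⟨c, ⟨p, hp, hpc, hp2⟩, hc1, hc2⟩ := hcon ξ hx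
    rw [tr_inter_of_lt (by rw [hpc]; exact hc2.le)] at hp2
    exact hB ((hξ p hp (by rw [hpc]; exact hc1.le)).mp hp2)

end Pool.Agent.EFF
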