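import Pool.Agent.Lib.MP_eff308_lc.EA.Level

/-!
Every `κ`-complete nonprincipal ultrafilter on an uncountable `κ` has a least function above the
constants.
-/

open Cardinal Set Filter

namespace Pool.Agent.EFF

universe u

variable {κ : Cardinal.{u}} {U : Ultrafilter κ.ord.ToType}

/-- `κ`-completeness of an ultrafilter. -/
def KComplete (κ : Cardinal.{u}) {α : Type u} (U : Ultrafilter α) : Prop :=
  ∀ S : Set (Set α), #S < κ → (∀ s ∈ S, s ∈ U) → ⋂₀ S ∈ U

/-- Nonprincipal: no singleton belongs to the ultrafilter. -/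
def Nonprincipal {α : Type u} (U : Ultrafilter α) : Prop := ∀ a : α, {a} ∉ U

theorem KComplete.ev_forall {α : Type u} {U : Ultrafilter α} (h : KComplete κ U) {ι : Type u}
    (hι : #ι < κ) (p : ι → α → Prop) (hp : ∀ i, ∀ᶠ x in (U : Filter α), p i x) :
    ∀ᶠ x in (U : Filter α), ∀ i, p i x := by
  have h1 := h (range fun i => {x | p i x}) (mk_range_le.trans_lt hι)
    (by rintro _ ⟨i, rfl⟩; exact hp i)
  filter_upwards [h1] with x hx i
  exact hx _ ⟨i, rfl⟩

theorem exists_meas (hκ : ℵ₀ < κ) (hU : KComplete κ U) (hn : Nonprincipal U) :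
    ∃ π : κ.ord.ToType → κ.ord.ToType, Meas κ U π := by
  classical
  have hsmall : ∀ a : κ.ord.ToType, #(Iic a) < κ := by
    intro a
    have h2 : #(Iio a) < κ := by simpa using mk_Iio_lt a
    have : (Iic a) = insert a (Iio a) := by
      ext x; simp [le_iff_lt_or_eq, or_comm]
    rw [this]
    exact (mk_insert_le).trans_lt (add_lt_of_lt hκ.le h2 (one_lt_aleph0.trans hκ))
  have hid : ∀ ξ : κ.ord.ToType, ∀ᶠ x in (U : Filter κ.ord.ToType), ξ < x := by
    intro ξ
    have h1 := hU.ev_forall (hsmall ξ) (fun (a : Iic ξ) x => x ≠ a.1) (fun a => by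
      have := Ultrafilter.compl_mem_iff_notMem.mpr (hn a.1)
      filter_upwards [this] with x hx hxa
      exact hx hxa)
    filter_upwards [h1] with x hx
    by_contra hcon
    exact hx ⟨x, not_lt.mp hcon⟩ rfl
  have hwf : WellFounded (fun f g : κ.ord.ToType → κ.ord.ToType =>
      ∀ᶠ x in (U : Filter κ.ord.ToType), f x < g x) := by
    rw [wellFounded_iff_isEmpty_descending_chain]
    refine ⟨?_⟩
    rintro ⟨f, hf⟩
    have h0 : #(ULift.{u} ℕ) < κ := by
      rw [mk_uLift, mk_nat, lift_aleph0]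
      exact hκ
    have h1 := hU.ev_forall h0 (fun i x => f (i.down + 1) x < f i.down x) (fun i => hf i.down)
    obtain ⟨x, hx⟩ := h1.exists
    have h2 : WellFounded ((· < ·) : κ.ord.ToType → κ.ord.ToType → Prop) := wellFounded_lt
    rw [wellFounded_iff_isEmpty_descending_chain] at h2
    exact h2.false ⟨fun n => f n x, fun n => hx ⟨n⟩⟩
  obtain ⟨π, hπ, hmin⟩ := hwf.has_min {f | ∀ ξ : κ.ord.ToType,
    ∀ᶠ x in (U : Filter κ.ord.ToType), ξ < f x} ⟨id, hid⟩
  refine ⟨π, hU, hπ, ?_⟩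
  intro f hf
  by_contra hcon
  push Not at hcon
  refine hmin f ?_ hf
  intro ξ
  by_contra hξ
  rw [← Ultrafilter.eventually_not] at hξ
  have h1 := hU.ev_forall (hsmall ξ) (fun (a : Iic ξ) x => f x ≠ a.1) (fun a => hcon a.1)
  obtain ⟨x, hx1, hx2⟩ := (h1.and hξ).exists
  exact hx1 ⟨f x, not_lt.mp hx2⟩ rfl

end Pool.Agent.EFF
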