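import Pool.Agent.Lib.MP_eff308_lc.EA.Order

/-!
Coding with the pseudo-intersection number, and its consequence: functions defined on a small
family of subsets of `κ` are internal to the ultrapower.
-/

open Cardinal Set Filter

namespace Pool.Agent.EFF

universe u

variable {α : Type u} [LinearOrder α] {κ : Cardinal.{u}} {U : Ultrafilter α} {π : α → α}

theorem sip_range {ι β : Type u} (g : ι → Set β)
    (hg : ∀ W : Set ι, #W < κ → #(↥(⋂ i ∈ W, g i)) = κ) : SIP κ (range g) := by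
  intro G hG hc
  obtain ⟨W, hW, hinj⟩ := exists_image_eq_injOn_of_subset_range hG
  rw [← hW, sInter_image]
  refine hg W ?_
  rw [← mk_image_eq_of_injOn _ _ hinj, hW]
  exact hc

theorem Idx.card_Ioi (hI : Idx α κ) (b : α) : #(Ioi b) = κ := by
  refine hI.card_of_unbdd _ ?_
  intro d
  obtain ⟨a, ha⟩ := hI.bdd {b, d} (by
    refine mk_insert_le.trans_lt (add_lt_of_lt hI.unc.le ?_ (one_lt_aleph0.trans hI.unc))
    simpa using one_lt_aleph0.trans hI.unc)
  exact ⟨a, ha b (by simp), (ha d (by simp)).le⟩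

/-- Few sets have pairwise different traces from some level on. -/
theorem Idx.exists_level (hI : Idx α κ) {L : Type u} (y : L → Set α) (W : Set L) (hW : #W < κ) :
    ∃ b, ∀ c, b < c → ∀ k ∈ W, ∀ k' ∈ W, tr c (y k) = tr c (y k') → y k = y k' := by
  classical
  obtain ⟨a0⟩ := hI.ne
  let η : W × W → α := fun q =>
    if hq : ∃ ξ, ¬ (ξ ∈ y q.1 ↔ ξ ∈ y q.2) then hq.choose else a0
  have h1 : #(range η) < κ := by
    refine mk_range_le.trans_lt ?_
    rw [mk_prod]
    simp only [lift_id]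
    exact mul_lt_of_lt hI.unc.le hW hW
  obtain ⟨b, hb⟩ := hI.bdd _ h1
  refine ⟨b, ?_⟩
  intro c hc k hk k' hk' htr
  by_contra hne
  have hq : ∃ ξ, ¬ (ξ ∈ y k ↔ ξ ∈ y k') := by
    by_contra hcon
    push Not at hcon
    exact hne (Set.ext hcon)
  have h2 : η (⟨k, hk⟩, ⟨k', hk'⟩) = hq.choose := dif_pos hq
  have h3 := hb _ ⟨(⟨k, hk⟩, ⟨k', hk'⟩), rfl⟩
  rw [h2] at h3
  have h4 := hq.choose_spec
  have h5 : hq.choose < c := h3.trans hc
  apply h4
  have h6 := Set.ext_iff.mp htr ⟨hq.choose, h5⟩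
  simpa [mem_tr] using h6

/-- Coding: fewer than `p(κ)` yes-no decisions are internal. -/
theorem coding (h : Meas κ U π) (hI : Idx α κ) (hsl : ∀ μ < κ, (2 : Cardinal.{u}) ^ μ < κ)
    {L : Type u} (I : Set L) (hIc : #I < pNum κ) (y : L → Set α) (hinj : InjOn y I) (B : Set L) :
    ∃ X : α → Set (Set α), ∀ k ∈ I,
      (k ∈ B → ∀ᶠ x in (U : Filter α), y k ∩ Iio (π x) ∈ X x) ∧
      (k ∉ B → ∀ᶠ x in (U : Filter α), y k ∩ Iio (π x) ∉ X x) := by
  let G : I → Set (CS α) := fun k => {p | tr p.1 (y k) ∈ p.2 ↔ k.1 ∈ B}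
  have hsip : SIP κ (range G) := by
    refine sip_range G ?_
    intro W hW
    obtain ⟨b, hb⟩ := hI.exists_level (fun k : I => y k) W hW
    let s : ∀ c : α, Set (Set (Iio c)) := fun c => {w | ∃ k ∈ W, k.1 ∈ B ∧ w = tr c (y k)}
    have hsub : (fun c : α => (⟨c, s c⟩ : CS α)) '' (Ioi b) ⊆ ⋂ i ∈ W, G i := by
      rintro _ ⟨c, hc, rfl⟩
      simp only [mem_iInter]
      intro k hk
      constructor
      · rintro ⟨k', hk', hB, htr⟩
        have := hb c hc k hk k' hk' htr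
        have h2 : k.1 = k'.1 := hinj k.2 k'.2 this
        rw [h2]; exact hB
      · intro hB
        exact ⟨k, hk, hB, rfl⟩
    have hle := mk_le_mk_of_subset hsub
    rw [mk_image_eq (fun a b hab => by simpa using congrArg Sigma.fst hab), hI.card_Ioi] at hle
    exact le_antisymm ((mk_set_le _).trans (card_CS hI hsl).le) hle
  obtain ⟨P, hP, hP2⟩ := hasPI_of_lt_pNum hI.unc (card_CS hI hsl) (range G)
    (mk_range_le.trans_lt hIc) hsip
  refine decode h hI hsl I B y P hP ?_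
  intro k hk
  have h1 := hP2 (G ⟨k, hk⟩) ⟨⟨k, hk⟩, rfl⟩
  obtain ⟨b, hb⟩ := hI.bdd (Sigma.fst '' (P \ G ⟨k, hk⟩)) (mk_image_le.trans_lt h1)
  refine ⟨b, ?_⟩
  intro p hp hbp
  by_contra hcon
  exact absurd hbp (not_le.mpr (hb p.1 ⟨p, ⟨hp, hcon⟩, rfl⟩))

/-- A coding hypothesis: all yes-no decisions on the index set `I` are internal. -/
def Codes (U : Ultrafilter α) (π : α → α) {L : Type u} (I : Set L) (y : L → Set α) : Prop :=
  ∀ B : Set L, ∃ X : α → Set (Set α), ∀ k ∈ I,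
      (k ∈ B → ∀ᶠ x in (U : Filter α), y k ∩ Iio (π x) ∈ X x) ∧
      (k ∉ B → ∀ᶠ x in (U : Filter α), y k ∩ Iio (π x) ∉ X x)

/-- Functions from a coded family to subsets of `κ` are internal. -/
theorem fun_real (h : Meas κ U π) {L : Type u} (I : Set L) (y : L → Set α)
    (hC : Codes U π I y) (φ : L → Set α) :
    ∃ Φ : α → Set α → Set α, ∀ k ∈ I, ∀ᶠ x in (U : Filter α),
      Φ x (y k ∩ Iio (π x)) = φ k ∩ Iio (π x) := by
  choose X hX using fun ξ : α => hC {k | ξ ∈ φ k}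
  refine ⟨fun x w => {ξ | ξ < π x ∧ w ∈ X ξ x}, ?_⟩
  intro k hk
  have h1 : ∀ ξ, ∀ᶠ x in (U : Filter α), (y k ∩ Iio (π x) ∈ X ξ x ↔ ξ ∈ φ k) := by
    intro ξ
    by_cases hξ : ξ ∈ φ k
    · filter_upwards [(hX ξ k hk).1 hξ] with x hx
      exact ⟨fun _ => hξ, fun _ => hx⟩
    · filter_upwards [(hX ξ k hk).2 hξ] with x hx
      exact ⟨fun h => absurd h hx, fun h => absurd h hξ⟩
  filter_upwards [h.diag _ h1] with x hx
  ext ξ
  constructor
  · rintro ⟨h2, h3⟩
    exact ⟨(hx ξ h2).mp h3, h2⟩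
  · rintro ⟨h2, h3⟩
    exact ⟨h3, (hx ξ h3).mpr h2⟩

/-- Functions from a coded family to functions on `κ` are internal when they are localised. -/
theorem fun_loc (h : Meas κ U π) {L : Type u} (I : Set L) (y : L → Set α)
    (hC : Codes U π I y) (f : L → α → α) (hloc : Localised U π (f '' I)) :
    ∃ Ψ : α → Set α → α, ∀ k ∈ I, ∀ᶠ x in (U : Filter α),
      Ψ x (y k ∩ Iio (π x)) = f k x := by
  classical
  obtain ⟨S, hS, hfS⟩ := hloc
  have hσ : ∀ x, Nonempty (S x ↪ Set (Iio (π x))) := by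
    intro x
    have := hS x
    rwa [← mk_set] at this
  let σ : ∀ x, S x ↪ Set (Iio (π x)) := fun x => (hσ x).some
  let w : L → α → Set α := fun k x =>
    if hx : f k x ∈ S x then Subtype.val '' (σ x ⟨f k x, hx⟩) else ∅
  have hw : ∀ k, ∀ x, w k x ⊆ Iio (π x) := by
    intro k x
    simp only [w]
    split_ifs with hx
    · rintro _ ⟨z, _, rfl⟩
      exact z.2
    · exact empty_subset _
  choose φ hφ using fun k => h.exists_real (w k) (Eventually.of_forall (hw k))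
  obtain ⟨Φ, hΦ⟩ := fun_real h I y hC φ
  refine ⟨fun x v => if hv : ∃ a : S x, Subtype.val '' (σ x a) = Φ x v then hv.choose.1 else x, ?_⟩
  intro k hk
  filter_upwards [hΦ k hk, hφ k, hfS (f k) ⟨k, hk, rfl⟩] with x h1 h2 h3
  have h4 : w k x = Subtype.val '' (σ x ⟨f k x, h3⟩) := dif_pos h3
  have h5 : ∃ a : S x, Subtype.val '' (σ x a) = Φ x (y k ∩ Iio (π x)) := by
    refine ⟨⟨f k x, h3⟩, ?_⟩
    rw [h1, ← h2, h4]
  have h6 := h5.choose_spec
  have h7 : h5.choose = ⟨f k x, h3⟩ := by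
    apply (σ x).injective
    apply Subtype.val_injective.image_injective
    rw [h6, h1, ← h2, h4]
  rw [dif_pos h5, h7]

/-- Bounded subsets of `κ` are coded by elements of `κ`. -/
theorem exists_enc (hI : Idx α κ) (hsl : ∀ μ < κ, (2 : Cardinal.{u}) ^ μ < κ) :
    ∃ enc : Set α → α, InjOn enc {s | ∃ b, s ⊆ Iio b} := by
  classical
  obtain ⟨a0⟩ := hI.ne
  have h1 : {s : Set α | ∃ b, s ⊆ Iio b} = ⋃ b, 𝒫 (Iio b) := by
    ext s; simp
  have h2 : #(↥{s : Set α | ∃ b, s ⊆ Iio b}) ≤ #α := by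
    rw [h1]
    refine (mk_iUnion_le _).trans ?_
    rw [hI.card]
    refine mul_le_of_le hI.unc.le le_rfl ?_
    refine ciSup_le' ?_
    intro b
    rw [mk_powerset]
    exact (hsl _ (hI.small b)).le
  obtain ⟨e⟩ : Nonempty (↥{s : Set α | ∃ b, s ⊆ Iio b} ↪ α) := h2
  refine ⟨fun s => if hs : ∃ b, s ⊆ Iio b then e ⟨s, hs⟩ else a0, ?_⟩
  intro s hs t ht hst
  have h3 : (∃ b, s ⊆ Iio b) := hs
  have h4 : (∃ b, t ⊆ Iio b) := ht
  simp only [dif_pos h3, dif_pos h4] at hst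
  simpa using e.injective hst

/-- Functions from a coded family to bounded subsets of `κ` are internal when their codes are
localised. -/
theorem fun_bdd (h : Meas κ U π) {L : Type u} (I : Set L) (y : L → Set α)
    (hC : Codes U π I y) (enc : Set α → α) (henc : InjOn enc {s | ∃ b, s ⊆ Iio b})
    (f : L → α → Set α) (hf : ∀ k x, ∃ b, f k x ⊆ Iio b)
    (hloc : Localised U π ((fun k x => enc (f k x)) '' I)) :
    ∃ Ψ : α → Set α → Set α, ∀ k ∈ I, ∀ᶠ x in (U : Filter α),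
      Ψ x (y k ∩ Iio (π x)) = f k x := by
  classical
  obtain ⟨Ψ, hΨ⟩ := fun_loc h I y hC (fun k x => enc (f k x)) hloc
  refine ⟨fun x w => Function.invFunOn enc {s | ∃ b, s ⊆ Iio b} (Ψ x w), ?_⟩
  intro k hk
  filter_upwards [hΨ k hk] with x hx
  rw [hx]
  exact henc.leftInvOn_invFunOn (hf k x)

end Pool.Agent.EFF
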