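import Pool.Agent.Lib.MP_eff308_lc.EA.Ultra

/-!
A cardinal with a `κ`-complete nonprincipal ultrafilter is regular and a strong limit.
-/

open Cardinal Set Filter

namespace Pool.Agent.EFF

universe u

variable {κ : Cardinal.{u}} {U : Ultrafilter κ.ord.ToType} {π : κ.ord.ToType → κ.ord.ToType}

theorem Meas.reg (hκ : ℵ₀ < κ) (h : Meas κ U π) : κ.IsRegular := by
  refine ⟨hκ.le, ?_⟩
  by_contra hcon
  push Not at hcon
  rw [← Ordinal.cof_toType] at hcon
  obtain ⟨s, hs, hs2⟩ := Order.exists_cof_eq κ.ord.ToType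
  rw [← hs2] at hcon
  have h1 : ∀ a ∈ s, ∀ᶠ x in (U : Filter κ.ord.ToType), x ∉ Iic a := by
    intro a _
    refine h.small_null _ ?_
    have h2 : #(Iio a) < κ := by simpa using mk_Iio_lt a
    have : (Iic a) = insert a (Iio a) := by
      ext x; simp [le_iff_lt_or_eq, or_comm]
    rw [this]
    exact (mk_insert_le).trans_lt (add_lt_of_lt hκ.le h2 (one_lt_aleph0.trans hκ))
  obtain ⟨x, hx⟩ := (h.ev_ball s hcon (fun a x => x ∉ Iic a) h1).exists
  obtain ⟨a, ha, hxa⟩ := hs x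
  exact hx a ha hxa

theorem Meas.idx (hκ : ℵ₀ < κ) (h : Meas κ U π) : Idx κ.ord.ToType κ where
  unc := hκ
  reg := h.reg hκ
  card := by simp
  small := fun a => by simpa using mk_Iio_lt a

/-- `2 ^ μ < κ` for `μ < κ`. -/
theorem two_power_lt {α : Type u} [LinearOrder α] {U : Ultrafilter α} {π : α → α}
    (hα : #α = κ) (h : Meas κ U π) (μ : Cardinal.{u}) (hμ : μ < κ) :
    2 ^ μ < κ := by
  classical
  by_contra hcon
  push Not at hcon
  induction μ using Cardinal.inductionOn with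
  | _ β =>
  rw [← hα, ← mk_set] at hcon
  obtain ⟨f⟩ : Nonempty (α ↪ Set β) := hcon
  have h1 : ∀ b : β, ∃ P : Prop, ∀ᶠ x in (U : Filter α), (b ∈ f x ↔ P) := by
    intro b
    by_cases hb : ∀ᶠ x in (U : Filter α), b ∈ f x
    · exact ⟨True, hb.mono fun x hx => ⟨fun _ => trivial, fun _ => hx⟩⟩
    · exact ⟨False, (Ultrafilter.eventually_not.mpr hb).mono
        fun x hx => ⟨fun h => hx h, fun h => h.elim⟩⟩
  choose P hP using h1
  have h2 := h.ev_forall hμ (fun b x => (b ∈ f x ↔ P b)) hP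
  obtain ⟨x, hx⟩ := h2.exists
  have h3 : ∀ᶠ z in (U : Filter α), z = x := by
    filter_upwards [h2] with z hz
    apply f.injective
    ext b
    rw [hx b, hz b]
  obtain ⟨z, hz1, hz2⟩ := (h3.and (h.above (π x))).exists
  rw [hz1] at hz2
  exact lt_irrefl _ hz2

end Pool.Agent.EFF
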