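import Pool.Agent.Lib.MP_eff308_lc.EA.Point

/-!
Small sets of subsets of `κ` that belong to the ultrapower; a tower that codes `κ⁺` decisions.
-/

open Cardinal Set Filter

namespace Pool.Agent.EFF

universe u

variable {α : Type u} [LinearOrder α] {κ : Cardinal.{u}} {U : Ultrafilter α} {π : α → α}

/-- The set `Y` of subsets of `κ` belongs to the ultrapower by `U`: it is represented by a
function `X` with `X x` a set of subsets of `π x`. -/
def InUlt {α : Type u} [LinearOrder α] (U : Ultrafilter α) (π : α → α) (Y : Set (Set α)) : Prop :=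
  ∃ X : α → Set (Set α), Y = {y | ∀ᶠ x in (U : Filter α), y ∩ Iio (π x) ∈ X x}

theorem Meas.exists_initial (h : Meas κ U π) (hκ : ℵ₀ < κ) (lam : Cardinal.{u})
    (hlam : lam < #(Set α)) :
    ∃ (y : lam.ord.ToType → Set α) (z : Set α), (∀ i j, i < j → Rel U π (y i) (y j)) ∧
      (∀ z i, Rel U π z (y i) → ∃ j < i, z = y j) ∧ Function.Injective y ∧
      ∀ v, Rel U π v z ↔ v ∈ range y := by
  have hw := h.isWellOrder_rel hκ
  obtain ⟨y, hy, hy2, hinj⟩ := h.exists_seq hκ lam hlam.le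
  have hne : (range y)ᶜ.Nonempty := by
    rw [nonempty_compl]
    intro hcon
    have h1 : #(range y) ≤ lam := mk_range_le.trans (by simp)
    rw [hcon, mk_univ] at h1
    exact absurd hlam (not_lt.mpr h1)
  obtain ⟨z, hz, hz2⟩ := hw.wf.has_min _ hne
  refine ⟨y, z, hy, hy2, hinj, ?_⟩
  intro v
  constructor
  · intro hv
    by_contra hcon
    exact hz2 v hcon hv
  · rintro ⟨i, rfl⟩
    rcases trichotomous_of (Rel U π) (y i) z with h1 | h1 | h1
    · exact h1
    · exact absurd ⟨i, h1⟩ hz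
    · obtain ⟨j, _, hj⟩ := hy2 z i h1
      exact absurd ⟨j, hj.symm⟩ hz

theorem inUlt_of_codes (h : Meas κ U π) (hκ : ℵ₀ < κ) (lam : Cardinal.{u})
    (hlam : lam < #(Set α))
    (hC : ∀ y : lam.ord.ToType → Set α, (∀ i j, i < j → Rel U π (y i) (y j)) →
      (∀ z i, Rel U π z (y i) → ∃ j < i, z = y j) → Function.Injective y → Codes U π univ y)
    (Y : Set (Set α)) (hY : #Y ≤ lam) : InUlt U π Y := by
  classical
  rcases Y.eq_empty_or_nonempty with hY0 | hY0
  · refine ⟨fun _ => ∅, ?_⟩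
    rw [hY0]
    ext y
    constructor
    · intro hy
      exact absurd hy (notMem_empty y)
    · intro hy
      have h1 : ∀ᶠ x in (U : Filter α), y ∩ Iio (π x) ∈ (∅ : Set (Set α)) := hy
      obtain ⟨x, hx⟩ := h1.exists
      exact absurd hx (notMem_empty _)
  obtain ⟨y, z, hy, hy2, hinj, hyz⟩ := h.exists_initial hκ lam hlam
  obtain ⟨φ, hφ⟩ : ∃ φ : lam.ord.ToType → Set α, range φ = Y := by
    have : Nonempty Y := hY0.to_subtype
    have hl : #(lam.ord.ToType) = lam := by simp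
    rw [← hl, Cardinal.le_def] at hY
    obtain ⟨e⟩ := hY
    refine ⟨fun i => (Function.invFun e i).1, ?_⟩
    ext A
    constructor
    · rintro ⟨i, rfl⟩
      exact (Function.invFun e i).2
    · intro hA
      refine ⟨e ⟨A, hA⟩, ?_⟩
      simp only [Function.leftInverse_invFun e.injective ⟨A, hA⟩]
  obtain ⟨Φ, hΦ⟩ := fun_real h univ y (hC y hy hy2 hinj) φ
  refine ⟨fun x => {v | ∃ w, w ⊆ Iio (π x) ∧ WellOrderingRel w (z ∩ Iio (π x)) ∧ v = Φ x w}, ?_⟩
  ext v
  constructor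
  · intro hv
    rw [← hφ] at hv
    obtain ⟨i, rfl⟩ := hv
    have h1 : Rel U π (y i) z := (hyz _).mpr ⟨i, rfl⟩
    filter_upwards [h1, hΦ i (mem_univ i)] with x hx1 hx2
    exact ⟨y i ∩ Iio (π x), inter_subset_right, hx1, hx2.symm⟩
  · intro hv
    have hv1 : ∀ᶠ x in (U : Filter α), ∃ w, w ⊆ Iio (π x) ∧
        WellOrderingRel w (z ∩ Iio (π x)) ∧ v ∩ Iio (π x) = Φ x w := hv
    let w : α → Set α := fun x =>
      if hx : ∃ w, w ⊆ Iio (π x) ∧ WellOrderingRel w (z ∩ Iio (π x)) ∧ v ∩ Iio (π x) = Φ x w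
      then hx.choose else ∅
    have h2 : ∀ᶠ x in (U : Filter α), w x ⊆ Iio (π x) ∧
        WellOrderingRel (w x) (z ∩ Iio (π x)) ∧ v ∩ Iio (π x) = Φ x (w x) := by
      filter_upwards [hv1] with x hx
      have : w x = hx.choose := dif_pos hx
      rw [this]
      exact hx.choose_spec
    obtain ⟨u, hu1, hu2⟩ := h.exists_below z w (h2.mono fun x hx => hx.1)
      (h2.mono fun x hx => hx.2.1)
    obtain ⟨i, rfl⟩ := (hyz u).mp hu1
    rw [← hφ]
    refine ⟨i, ?_⟩
    refine h.real_unique _ _ ?_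
    filter_upwards [h2, hu2, hΦ i (mem_univ i)] with x hx1 hx2 hx3
    rw [hx1.2.2, hx2, hx3]

theorem sip_transfer {ι α β : Type u} {κ : Cardinal.{u}} (e : α ≃ β) (G : ι → Set β)
    (h : SIP κ (range G)) : SIP κ (range fun i => e ⁻¹' G i) := by
  refine sip_range _ ?_
  intro W hW
  have h1 : (⋂ i ∈ W, e ⁻¹' G i) = e ⁻¹' (⋂ i ∈ W, G i) := by
    ext z; simp
  have h2 := h (G '' W) (image_subset_range _ _) (mk_image_le.trans_lt hW)
  rw [sInter_image] at h2
  rw [h1, ← Cardinal.mk_image_eq (s := e ⁻¹' (⋂ i ∈ W, G i)) e.injective, e.image_preimage]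
  exact h2

theorem hasPI_transfer {ι α β : Type u} {κ : Cardinal.{u}} (e : α ≃ β) (G : ι → Set β)
    (h : HasPI κ (range fun i => e ⁻¹' G i)) : HasPI κ (range G) := by
  obtain ⟨A, hA, hA2⟩ := h
  refine ⟨e '' A, by rw [mk_image_eq e.injective, hA], ?_⟩
  rintro _ ⟨i, rfl⟩
  have h1 := hA2 (e ⁻¹' G i) ⟨i, rfl⟩
  unfold AlmostSub at h1 ⊢
  have h2 : e '' A \ G i = e '' (A \ e ⁻¹' G i) := by
    rw [image_sdiff e.injective, e.image_preimage]
  rw [h2, mk_image_eq e.injective]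
  exact h1

theorem Meas.diag_inj (h : Meas κ U π) {L : Type u} (s : Set L) (r : L → α) (hr : InjOn r s)
    (p : L → α → Prop) (hp : ∀ i ∈ s, ∀ᶠ x in (U : Filter α), p i x) :
    ∀ᶠ x in (U : Filter α), ∀ i ∈ s, r i < π x → p i x := by
  have h1 : ∀ ξ, ∀ᶠ x in (U : Filter α), ∀ i ∈ s, r i = ξ → p i x := by
    intro ξ
    by_cases hξ : ∃ i ∈ s, r i = ξ
    · obtain ⟨i, hi, hiξ⟩ := hξ
      filter_upwards [hp i hi] with x hx j hj hjξ
      have : j = i := hr hj hi (hjξ.trans hiξ.symm)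
      rw [this]; exact hx
    · exact Eventually.of_forall fun x i hi hiξ => absurd ⟨i, hi, hiξ⟩ hξ
  filter_upwards [h.diag _ h1] with x hx i hi hix
  exact hx (r i) hix i hi rfl

theorem CS_small (hI : Idx α κ) (hsl : ∀ μ < κ, (2 : Cardinal.{u}) ^ μ < κ) (ξ : α) :
    #{p : CS α | p.1 ≤ ξ} < κ := by
  by_contra hcon
  push Not at hcon
  have h1 : #{p : CS α | p.1 ≤ ξ} = κ :=
    le_antisymm ((mk_set_le _).trans (card_CS hI hsl).le) hcon
  obtain ⟨p, hp, hp2⟩ := CS_unbdd hI hsl _ h1 ξ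
  exact absurd hp (not_le.mpr hp2)

end Pool.Agent.EFF
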