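import Pool.Agent.Lib.MP_eff308_lc.EA.Tower

/-!
Coding of `p(κ)` decisions from a tower built inside the ultrapower.
-/

open Cardinal Set Filter

namespace Pool.Agent.EFF

universe u

variable {κ : Cardinal.{u}} {U : Ultrafilter κ.ord.ToType} {π : κ.ord.ToType → κ.ord.ToType}

theorem tower_transfer {β : Type u} (hβ : #β = κ) (lam : Cardinal.{u})
    (h2 : lam < tNum κ) (G : lam.ord.ToType → Set β)
    (hd : ∀ i, ∀ k < i, AlmostSub κ (G i) (G k)) (hs : SIP κ (range G)) :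
    HasPI κ (range G) := by
  have hc : #κ.ord.ToType = #β := by simp [hβ]
  obtain ⟨e⟩ : Nonempty (κ.ord.ToType ≃ β) := Cardinal.eq.mp hc
  refine hasPI_transfer e G ?_
  refine hasPI_of_lt_tNum lam.ord (fun i => e ⁻¹' G i)
    (mk_range_le.trans_lt (by simpa using h2)) ?_ (sip_transfer e G hs)
  intro i j hij
  have h1 := hd j i hij
  unfold AlmostSub at h1 ⊢
  rw [← mk_image_eq e.injective, image_sdiff e.injective, e.image_preimage, e.image_preimage]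
  exact h1

theorem image_tr {α : Type u} [LinearOrder α] (c : α) (w : Set α) (hw : w ⊆ Iio c) :
    Subtype.val '' (tr c w) = w := by
  ext z
  constructor
  · rintro ⟨v, hv, rfl⟩
    exact hv
  · intro hz
    exact ⟨⟨z, hw hz⟩, hz, rfl⟩

theorem codes_level (h : Meas κ U π) (hκ : ℵ₀ < κ) (lam : Cardinal.{u})
    (hcof : κ ≤ lam.ord.cof) (hκl : κ ≤ lam) (h1 : lam ≤ pNum κ)
    (h2 : lam < tNum κ) (h3 : PIU κ U lam)
    (y : lam.ord.ToType → Set κ.ord.ToType)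
    (hy : ∀ i j, i < j → Rel U π (y i) (y j))
    (hy2 : ∀ z i, Rel U π z (y i) → ∃ j < i, z = y j)
    (hinj : Function.Injective y) : Codes U π univ y := by
  classical
  intro B
  have hI := h.idx hκ
  have hsl : ∀ μ < κ, (2 : Cardinal.{u}) ^ μ < κ := fun μ hμ => two_power_lt hI.card h μ hμ
  have haleph : ℵ₀ ≤ lam := hκ.le.trans hκl
  have hsmall : ∀ i : lam.ord.ToType, #(Iio i) < lam := fun i => by simpa using mk_Iio_lt i
  choose X hX using fun d : lam.ord.ToType =>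
    coding h hI hsl (Iio d) ((hsmall d).trans_le h1) y hinj.injOn B
  let T : lam.ord.ToType → κ.ord.ToType → Set (CS κ.ord.ToType) := fun d x =>
    {p | p.1 = π x ∧ ∀ w, w ⊆ Iio p.1 → WellOrderingRel w (y d ∩ Iio p.1) →
      (tr p.1 w ∈ p.2 ↔ w ∈ X d x)}
  have hT1 : ∀ d, ∀ k < d, ∀ᶠ x in (U : Filter κ.ord.ToType),
      ∀ p ∈ T d x, (tr p.1 (y k) ∈ p.2 ↔ k ∈ B) := by
    intro d k hk
    have h4 : ∀ᶠ x in (U : Filter κ.ord.ToType), (y k ∩ Iio (π x) ∈ X d x ↔ k ∈ B) := by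
      by_cases hB : k ∈ B
      · filter_upwards [(hX d k hk).1 hB] with x hx
        exact ⟨fun _ => hB, fun _ => hx⟩
      · filter_upwards [(hX d k hk).2 hB] with x hx
        exact ⟨fun h => absurd h hx, fun h => absurd h hB⟩
    filter_upwards [h4, hy k d hk] with x hx1 hx2 p hp
    have h5 := hp.2 (y k ∩ Iio p.1) inter_subset_right (by rw [hp.1]; exact hx2)
    rw [tr_inter_of_lt le_rfl] at h5
    rw [h5, hp.1]
    exact hx1
  have hT2 : ∀ d, ∀ k < d, ∀ᶠ x in (U : Filter κ.ord.ToType), T d x ⊆ T k x := by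
    intro d k hk
    by_contra hcon
    rw [← Ultrafilter.eventually_not] at hcon
    have h4 : ∀ᶠ x in (U : Filter κ.ord.ToType), ∃ w p, w ⊆ Iio (π x) ∧
        WellOrderingRel w (y k ∩ Iio (π x)) ∧ p ∈ T d x ∧
        ¬ (tr p.1 w ∈ p.2 ↔ w ∈ X k x) := by
      filter_upwards [hcon] with x hx
      rw [not_subset] at hx
      obtain ⟨p, hp1, hp2⟩ := hx
      have h5 : ¬ (∀ w, w ⊆ Iio p.1 → WellOrderingRel w (y k ∩ Iio p.1) →
          (tr p.1 w ∈ p.2 ↔ w ∈ X k x)) := fun h3 => hp2 ⟨hp1.1, h3⟩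
      push Not at h5
      obtain ⟨w, hw1, hw2, hw3⟩ := h5
      refine ⟨w, p, by rw [← hp1.1]; exact hw1, by rw [← hp1.1]; exact hw2, hp1, ?_⟩
      intro h6
      rcases hw3 with h7 | h7
      · exact h7.2 (h6.mp h7.1)
      · exact h7.1 (h6.mpr h7.2)
    let w : κ.ord.ToType → Set κ.ord.ToType := fun x =>
      if hx : ∃ w p, w ⊆ Iio (π x) ∧ WellOrderingRel w (y k ∩ Iio (π x)) ∧ p ∈ T d x ∧
        ¬ (tr p.1 w ∈ p.2 ↔ w ∈ X k x) then hx.choose else ∅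
    have h5 : ∀ᶠ x in (U : Filter κ.ord.ToType), ∃ p, w x ⊆ Iio (π x) ∧
        WellOrderingRel (w x) (y k ∩ Iio (π x)) ∧ p ∈ T d x ∧
        ¬ (tr p.1 (w x) ∈ p.2 ↔ w x ∈ X k x) := by
      filter_upwards [h4] with x hx
      have : w x = hx.choose := dif_pos hx
      rw [this]
      exact hx.choose_spec
    obtain ⟨v, hv1, hv2⟩ := h.exists_below (y k) w (h5.mono fun x hx => hx.choose_spec.1)
      (h5.mono fun x hx => hx.choose_spec.2.1)
    obtain ⟨j, hj, rfl⟩ := hy2 v k hv1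
    have h6 := hT1 d j (hj.trans hk)
    have h7 : ∀ᶠ x in (U : Filter κ.ord.ToType), (y j ∩ Iio (π x) ∈ X k x ↔ j ∈ B) := by
      by_cases hB : j ∈ B
      · filter_upwards [(hX k j hj).1 hB] with x hx
        exact ⟨fun _ => hB, fun _ => hx⟩
      · filter_upwards [(hX k j hj).2 hB] with x hx
        exact ⟨fun h => absurd h hx, fun h => absurd h hB⟩
    obtain ⟨x, ⟨⟨⟨hx1, hx2⟩, hx3⟩, hx4⟩⟩ := (((h5.and hv2).and h6).and h7).exists
    obtain ⟨p, hp1, hp2, hp3, hp4⟩ := hx1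
    apply hp4
    rw [hx2, hx4, ← hp3.1, tr_inter_of_lt le_rfl]
    exact hx3 p hp3
  have hT3 : ∀ d x, ∃ p, p ∈ T d x ∧ p.1 = π x := by
    intro d x
    refine ⟨⟨π x, {v | Subtype.val '' v ∈ X d x}⟩, ⟨rfl, ?_⟩, rfl⟩
    intro w hw _
    have h4 : Subtype.val '' (tr (π x) w) = w := image_tr _ w hw
    change Subtype.val '' (tr (π x) w) ∈ X d x ↔ w ∈ X d x
    rw [h4]
  let D : lam.ord.ToType → lam.ord.ToType → Set κ.ord.ToType := fun i k =>
    {x | k < i → (∀ p ∈ T i x, (tr p.1 (y k) ∈ p.2 ↔ k ∈ B)) ∧ T i x ⊆ T k x}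
  let C : (lam.ord.ToType × lam.ord.ToType) ⊕ κ.ord.ToType → Set κ.ord.ToType := fun q => q.elim
    (fun q => D q.1 q.2) (fun ξ => {x | ξ < π x})
  have hC : ∀ A ∈ range C, A ∈ U := by
    rintro _ ⟨q, rfl⟩
    rcases q with ⟨i, k⟩ | ξ
    · change ∀ᶠ x in (U : Filter κ.ord.ToType), k < i →
        (∀ p ∈ T i x, (tr p.1 (y k) ∈ p.2 ↔ k ∈ B)) ∧ T i x ⊆ T k x
      by_cases hk : k < i
      · filter_upwards [hT1 i k hk, hT2 i k hk] with x hx1 hx2
        exact fun _ => ⟨hx1, hx2⟩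
      · exact Eventually.of_forall fun x h => absurd h hk
    · exact h.above ξ
  have hcard : #(range C) ≤ lam := by
    refine mk_range_le.trans ?_
    rw [mk_sum, mk_prod]
    simp only [lift_id]
    refine add_le_of_le haleph ?_ ?_
    · rw [show #(lam.ord.ToType) = lam by simp]
      exact (mul_eq_self haleph).le
    · rw [hI.card]; exact hκl
  obtain ⟨Z, hZ, hZ2⟩ := h3 (range C) hC hcard
  let G : lam.ord.ToType → Set (CS κ.ord.ToType) := fun i => ⋃ x ∈ Z, T i x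
  have hTc : ∀ i x, #(T i x) < κ := fun i x =>
    (mk_le_mk_of_subset (fun p hp => (hp.1.le : p.1 ≤ π x))).trans_lt (CS_small hI hsl (π x))
  have hZD : ∀ i k, #(↥(Z \ D i k)) < κ := fun i k => hZ2 _ ⟨Sum.inl (i, k), rfl⟩
  have hZπ : ∀ ξ, #(↥(Z \ {x | ξ < π x})) < κ := fun ξ => hZ2 _ ⟨Sum.inr ξ, rfl⟩
  have hGc : ∀ i, #(G i) = κ := by
    intro i
    refine le_antisymm ((mk_set_le _).trans (card_CS hI hsl).le) ?_
    by_contra hcon
    rw [not_le] at hcon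
    obtain ⟨b, hb⟩ := hI.bdd (Sigma.fst '' G i) (mk_image_le.trans_lt hcon)
    have h5 := hI.card_diff Z _ hZ (hZπ b)
    have h6 : (Z ∩ {x | b < π x}).Nonempty := by
      rw [nonempty_iff_ne_empty]
      intro h7
      rw [h7] at h5
      simp only [mk_eq_zero] at h5
      exact (aleph0_pos.trans hκ).ne h5
    obtain ⟨x, hx1, hx2⟩ := h6
    obtain ⟨p, hp1, hp2⟩ := hT3 i x
    have h7 := hb p.1 ⟨p, by
      simp only [G, mem_iUnion]
      exact ⟨x, hx1, hp1⟩, rfl⟩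
    rw [hp2] at h7
    exact absurd hx2 (not_lt.mpr h7.le)
  have hGG : ∀ i, ∀ k < i, AlmostSub κ (G i) (G k) := by
    intro i k hk
    refine (mk_le_mk_of_subset ?_).trans_lt
      (hI.small_biUnion (Z \ D i k) (hZD i k) (fun x => T i x) (fun x _ => hTc i x))
    rintro z ⟨hz, hzF⟩
    simp only [G, mem_iUnion] at hz hzF ⊢
    obtain ⟨x, hx, hzx⟩ := hz
    exact ⟨x, ⟨hx, fun hD => hzF ⟨x, hx, (hD hk).2 hzx⟩⟩, hzx⟩
  have hGB : ∀ i, ∀ k < i, AlmostSub κ (G i) {p | tr p.1 (y k) ∈ p.2 ↔ k ∈ B} := by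
    intro i k hk
    refine (mk_le_mk_of_subset ?_).trans_lt
      (hI.small_biUnion (Z \ D i k) (hZD i k) (fun x => T i x) (fun x _ => hTc i x))
    rintro z ⟨hz, hzF⟩
    simp only [G, mem_iUnion] at hz ⊢
    obtain ⟨x, hx, hzx⟩ := hz
    exact ⟨x, ⟨hx, fun hD => hzF ((hD hk).1 z hzx)⟩, hzx⟩
  have hsip : SIP κ (range G) :=
    sip_of_decr hI (card_CS hI hsl).le G hGc hGG (bound_of_cof lam hcof)
  obtain ⟨P, hP, hP2⟩ := tower_transfer (card_CS hI hsl) lam h2 G hGG hsip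
  refine decode h hI hsl univ B y P hP ?_
  intro k _
  obtain ⟨i, hi⟩ := bound_of_cof lam hcof {k} (by simpa using one_lt_aleph0.trans hκ)
  have h4 : AlmostSub κ P {p | tr p.1 (y k) ∈ p.2 ↔ k ∈ B} :=
    (hP2 _ ⟨i, rfl⟩).trans hI (hGB i k (hi k rfl))
  obtain ⟨b, hb⟩ := hI.bdd (Sigma.fst '' (P \ {p | tr p.1 (y k) ∈ p.2 ↔ k ∈ B}))
    (mk_image_le.trans_lt h4)
  refine ⟨b, ?_⟩
  intro p hp hbp
  by_contra hcon
  exact absurd hbp (not_le.mpr (hb p.1 ⟨p, ⟨hp, hcon⟩, rfl⟩))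

theorem tNum_le (κ : Cardinal.{u}) : tNum κ ≤ #(Set κ.ord.ToType) := by
  rcases Set.eq_empty_or_nonempty {μ | ∃ (δ : Ordinal.{u}) (T : δ.ToType → Set κ.ord.ToType),
    #(range T) = μ ∧ (∀ i j, i < j → AlmostSub κ (T j) (T i)) ∧ SIP κ (range T) ∧
    ¬ HasPI κ (range T)} with h1 | h1
  · rw [tNum, h1, Cardinal.sInf_empty]
    exact zero_le
  · obtain ⟨δ, T, hT, _⟩ := csInf_mem h1
    have : tNum κ = #(range T) := hT.symm
    rw [this]
    exact mk_set_le _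

/-- Consequences of `p(κ) < t(κ)` for every `κ`-complete nonprincipal ultrafilter on `κ`. -/
theorem theoremA (h : Meas κ U π) (hκ : ℵ₀ < κ) (hpt : pNum κ < tNum κ) :
    (pUlt κ U = pNum κ ∧ ∃ G : Set (Set κ.ord.ToType), (∀ A ∈ G, A ∈ U) ∧ #G < pNum κ ∧
      ¬ ∃ A ∈ U, ∀ B ∈ G, AlmostSub κ A B) ∨
    (lUlt κ U π < pNum κ ∧ ∀ Y : Set (Set κ.ord.ToType), #Y ≤ pNum κ → InUlt U π Y) ∨
    (pNum κ).ord.cof < κ := by
  classical
  by_cases hcof : κ ≤ (pNum κ).ord.cof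
  swap
  · exact Or.inr (Or.inr (not_le.mp hcof))
  have hκl : κ ≤ pNum κ := hcof.trans (Ordinal.cof_ord_le _)
  by_cases h3 : PIU κ U (pNum κ)
  · right
    left
    constructor
    · by_contra hcon
      exact not_piu h hκ hpt hcof (not_lt.mp hcon) h3
    · intro Y hY
      exact inUlt_of_codes h hκ (pNum κ) (hpt.trans_le (tNum_le κ))
        (fun y hy hy2 hinj => codes_level h hκ (pNum κ) hcof hκl le_rfl hpt h3 y hy hy2 hinj) Y hY
  · left
    refine ⟨le_antisymm ?_ (pNum_le_pUlt h hκ), ?_⟩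
    · by_contra hcon
      exact h3 (PIU.of_lt (not_le.mp hcon))
    · by_contra hcon
      push Not at hcon
      refine h3 (piu_of_point h hκ (pNum κ) hcof hpt ?_)
      intro G hG hc
      exact hcon G hG hc

end Pool.Agent.EFF
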