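import Pool.Agent.Lib.MP_eff308_lc.EA.Fun

/-!
The tower built inside the ultrapower and its transfer to `κ`.
-/

open Cardinal Set Filter

namespace Pool.Agent.EFF

universe u

theorem SIP.mono {α : Type u} {κ : Cardinal.{u}} {F G : Set (Set α)} (h : SIP κ F) (hG : G ⊆ F) :
    SIP κ G := fun G' hG' hc => h G' (hG'.trans hG) hc

theorem HasPI.mono {α : Type u} {κ : Cardinal.{u}} {F G : Set (Set α)} (h : HasPI κ F)
    (hG : G ⊆ F) : HasPI κ G := by
  obtain ⟨A, hA, hA2⟩ := h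
  exact ⟨A, hA, fun B hB => hA2 B (hG hB)⟩

/-- A decreasing family in which small subfamilies are bounded has the intersection property. -/
theorem sip_of_decr {α : Type u} [LinearOrder α] {κ : Cardinal.{u}} (hI : Idx α κ) {β ι : Type u}
    [LinearOrder ι] (hβ : #β ≤ κ) (G : ι → Set β) (hG : ∀ i, #(G i) = κ)
    (hGG : ∀ i, ∀ k < i, AlmostSub κ (G i) (G k))
    (hb : ∀ W : Set ι, #W < κ → ∃ i, ∀ k ∈ W, k < i) : SIP κ (range G) := by
  refine sip_range G ?_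
  intro W hW
  obtain ⟨i, hi⟩ := hb W hW
  have h4 : #(↥(G i \ ⋂ k ∈ W, G k)) < κ := by
    refine (mk_le_mk_of_subset ?_).trans_lt
      (hI.small_biUnion W hW (fun k => G i \ G k) (fun k hk => hGG i k (hi k hk)))
    rintro z ⟨hz, hz2⟩
    simp only [mem_iInter, not_forall] at hz2
    obtain ⟨k, hk, hzk⟩ := hz2
    simp only [mem_iUnion]
    exact ⟨k, hk, hz, hzk⟩
  have h5 := hI.card_diff (G i) _ (hG i) h4
  refine le_antisymm ((mk_set_le _).trans hβ) ?_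
  exact h5.symm.le.trans (mk_le_mk_of_subset inter_subset_right)

section

variable {κ : Cardinal.{u}} {U : Ultrafilter κ.ord.ToType} {π : κ.ord.ToType → κ.ord.ToType}

/-- Every family of at most `lam` members of `U` has a pseudo-intersection. -/
def PIU (κ : Cardinal.{u}) (U : Ultrafilter κ.ord.ToType) (lam : Cardinal.{u}) : Prop :=
  ∀ G : Set (Set κ.ord.ToType), (∀ A ∈ G, A ∈ U) → #G ≤ lam → HasPI κ G

theorem pNum_le (κ : Cardinal.{u}) : pNum κ ≤ #(Set κ.ord.ToType) := by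
  rcases Set.eq_empty_or_nonempty {μ | ∃ F : Set (Set κ.ord.ToType), #F = μ ∧
    (∀ A ∈ F, #A = κ) ∧ SIP κ F ∧ ¬ HasPI κ F} with h1 | h1
  · rw [pNum, h1, Cardinal.sInf_empty]
    exact zero_le
  · obtain ⟨F, hF, _⟩ := csInf_mem h1
    have : pNum κ = #F := hF.symm
    rw [this]
    exact mk_set_le F

theorem PIU.of_lt {lam : Cardinal.{u}} (h : lam < pUlt κ U) : PIU κ U lam :=
  fun G hG hc => hasPI_of_lt_pUlt G (hc.trans_lt h) hG

/-- The bounding function. -/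
theorem exists_bound (h : Meas κ U π) (hI : Idx κ.ord.ToType κ) (lam : Cardinal.{u})
    (h3 : PIU κ U lam) {L : Type u} (hL : #L ≤ lam)
    (hκl : κ ≤ lam) (a : L → κ.ord.ToType → κ.ord.ToType) :
    ∃ g : κ.ord.ToType → κ.ord.ToType, ∀ i, ∀ᶠ x in (U : Filter κ.ord.ToType),
      a i (π x) < g x := by
  classical
  let C : L ⊕ κ.ord.ToType → Set κ.ord.ToType := fun q => q.elim
    (fun i => {x | ∀ ξ < π x, a i ξ < π x}) (fun ξ => {x | ξ < π x})
  have hC : ∀ A ∈ range C, A ∈ U := by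
    rintro _ ⟨q, rfl⟩
    rcases q with i | ξ
    · exact h.diag (fun ξ x => a i ξ < π x) (fun ξ => h.above (a i ξ))
    · exact h.above ξ
  have hcard : #(range C) ≤ lam := by
    refine mk_range_le.trans ?_
    rw [mk_sum]
    simp only [lift_id]
    refine add_le_of_le (hI.unc.le.trans hκl) hL ?_
    rw [hI.card]; exact hκl
  obtain ⟨Z, hZ, hZ2⟩ := h3 (range C) hC hcard
  have hex : ∀ x, ∃ z ∈ Z, π x < π z := by
    intro x
    have h1 := hI.card_diff Z (C (Sum.inr (π x))) hZ (hZ2 _ ⟨_, rfl⟩)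
    have h2 : (Z ∩ C (Sum.inr (π x))).Nonempty := by
      rw [nonempty_iff_ne_empty]
      intro h3
      rw [h3] at h1
      simp only [mk_eq_zero] at h1
      exact (aleph0_pos.trans hI.unc).ne h1
    obtain ⟨z, hz1, hz2⟩ := h2
    exact ⟨z, hz1, hz2⟩
  choose z hzZ hz using hex
  refine ⟨fun x => π (z x), ?_⟩
  intro i
  have h1 : AlmostSub κ Z (C (Sum.inl i)) := hZ2 _ ⟨_, rfl⟩
  obtain ⟨b, hb⟩ := hI.bdd (π '' (Z \ C (Sum.inl i))) (mk_image_le.trans_lt h1)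
  filter_upwards [h.above b] with x hx
  have h2 : z x ∈ C (Sum.inl i) := by
    by_contra hcon
    exact absurd (hb _ ⟨z x, ⟨hzZ x, hcon⟩, rfl⟩) (not_lt.mpr (hx.trans (hz x)).le)
  exact h2 (π x) (hz x)

/-- The tower inside the ultrapower. -/
theorem exists_inner (h : Meas κ U π) (hκ : ℵ₀ < κ) (lam : Cardinal.{u})
    (y : lam.ord.ToType → Set κ.ord.ToType)
    (hy : ∀ i j, i < j → Rel U π (y i) (y j))
    (hy2 : ∀ z i, Rel U π z (y i) → ∃ j < i, z = y j)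
    (F : lam.ord.ToType → Set κ.ord.ToType)
    (A : lam.ord.ToType → Set κ.ord.ToType)
    (hAF : ∀ i, ∀ k < i, AlmostSub κ (A i) (F k))
    (a : lam.ord.ToType → κ.ord.ToType → κ.ord.ToType)
    (ha : ∀ i ξ, a i ξ ∈ A i) (ha2 : ∀ i ξ, ξ < a i ξ)
    (g : κ.ord.ToType → κ.ord.ToType)
    (hg : ∀ i, ∀ᶠ x in (U : Filter κ.ord.ToType), a i (π x) < g x)
    (Ψ : lam.ord.ToType → κ.ord.ToType → Set κ.ord.ToType → Set κ.ord.ToType)
    (hΨ : ∀ i, ∀ k ∈ Iio i, ∀ᶠ x in (U : Filter κ.ord.ToType),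
      Ψ i x (y k ∩ Iio (π x)) = F k ∩ Ico (π x) (g x)) :
    ∃ T : lam.ord.ToType → κ.ord.ToType → Set κ.ord.ToType,
      (∀ i x, T i x ⊆ Iio (g x)) ∧
      (∀ i, ∀ k < i, ∀ᶠ x in (U : Filter κ.ord.ToType), T i x ⊆ F k) ∧
      (∀ i, ∀ k < i, ∀ᶠ x in (U : Filter κ.ord.ToType), T i x ⊆ T k x) ∧
      (∀ i, ∀ᶠ x in (U : Filter κ.ord.ToType), a i (π x) ∈ T i x) := by
  classical
  have hI := h.idx hκ
  let T : lam.ord.ToType → κ.ord.ToType → Set κ.ord.ToType := fun i x =>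
    {z | π x ≤ z ∧ z < g x ∧ ∀ w, w ⊆ Iio (π x) → WellOrderingRel w (y i ∩ Iio (π x)) →
      z ∈ Ψ i x w}
  have hTi : ∀ i, ∀ k < i, ∀ᶠ x in (U : Filter κ.ord.ToType), T i x ⊆ F k := by
    intro i k hk
    filter_upwards [hΨ i k hk, hy k i hk] with x h1 h2 z hz
    have h3 := hz.2.2 (y k ∩ Iio (π x)) inter_subset_right h2
    rw [h1] at h3
    exact h3.1
  refine ⟨T, fun i x z hz => hz.2.1, hTi, ?_, ?_⟩
  · intro i k hk
    by_contra hcon
    rw [← Ultrafilter.eventually_not] at hcon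
    have h1 : ∀ᶠ x in (U : Filter κ.ord.ToType), ∃ w z, w ⊆ Iio (π x) ∧
        WellOrderingRel w (y k ∩ Iio (π x)) ∧ z ∈ T i x ∧ z ∉ Ψ k x w := by
      filter_upwards [hcon] with x hx
      rw [not_subset] at hx
      obtain ⟨z, hz1, hz2⟩ := hx
      have h2 : ¬ (∀ w, w ⊆ Iio (π x) → WellOrderingRel w (y k ∩ Iio (π x)) → z ∈ Ψ k x w) :=
        fun h3 => hz2 ⟨hz1.1, hz1.2.1, h3⟩
      push Not at h2
      obtain ⟨w, hw1, hw2, hw3⟩ := h2
      exact ⟨w, z, hw1, hw2, hz1, hw3⟩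
    let w : κ.ord.ToType → Set κ.ord.ToType := fun x =>
      if hx : ∃ w z, w ⊆ Iio (π x) ∧ WellOrderingRel w (y k ∩ Iio (π x)) ∧ z ∈ T i x ∧
        z ∉ Ψ k x w then hx.choose else ∅
    have h2 : ∀ᶠ x in (U : Filter κ.ord.ToType), ∃ z, w x ⊆ Iio (π x) ∧
        WellOrderingRel (w x) (y k ∩ Iio (π x)) ∧ z ∈ T i x ∧ z ∉ Ψ k x (w x) := by
      filter_upwards [h1] with x hx
      have : w x = hx.choose := dif_pos hx
      rw [this]
      exact hx.choose_spec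
    obtain ⟨v, hv1, hv2⟩ := h.exists_below (y k) w (h2.mono fun x hx => hx.choose_spec.1)
      (h2.mono fun x hx => hx.choose_spec.2.1)
    obtain ⟨j, hj, rfl⟩ := hy2 v k hv1
    have h3 := hΨ k j hj
    have h4 := hTi i j (hj.trans hk)
    obtain ⟨x, ⟨⟨⟨hx1, hx2⟩, hx3⟩, hx4⟩⟩ := (((h2.and hv2).and h3).and h4).exists
    obtain ⟨z, hz1, hz2, hz3, hz4⟩ := hx1
    apply hz4
    rw [hx2, hx3]
    exact ⟨hx4 hz3, hz3.1, hz3.2.1⟩
  · intro i
    by_contra hcon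
    rw [← Ultrafilter.eventually_not] at hcon
    have h1 : ∀ᶠ x in (U : Filter κ.ord.ToType), ∃ w, w ⊆ Iio (π x) ∧
        WellOrderingRel w (y i ∩ Iio (π x)) ∧ a i (π x) ∉ Ψ i x w := by
      filter_upwards [hcon, hg i] with x hx hx2
      have h2 : ¬ (∀ w, w ⊆ Iio (π x) → WellOrderingRel w (y i ∩ Iio (π x)) →
          a i (π x) ∈ Ψ i x w) :=
        fun h3 => hx ⟨(ha2 i (π x)).le, hx2, h3⟩
      push Not at h2
      exact h2
    let w : κ.ord.ToType → Set κ.ord.ToType := fun x =>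
      if hx : ∃ w, w ⊆ Iio (π x) ∧ WellOrderingRel w (y i ∩ Iio (π x)) ∧
        a i (π x) ∉ Ψ i x w then hx.choose else ∅
    have h2 : ∀ᶠ x in (U : Filter κ.ord.ToType), w x ⊆ Iio (π x) ∧
        WellOrderingRel (w x) (y i ∩ Iio (π x)) ∧ a i (π x) ∉ Ψ i x (w x) := by
      filter_upwards [h1] with x hx
      have : w x = hx.choose := dif_pos hx
      rw [this]
      exact hx.choose_spec
    obtain ⟨v, hv1, hv2⟩ := h.exists_below (y i) w (h2.mono fun x hx => hx.1)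
      (h2.mono fun x hx => hx.2.1)
    obtain ⟨j, hj, rfl⟩ := hy2 v i hv1
    have h3 := hΨ i j hj
    have h5 : AlmostSub κ (A i) (F j) := hAF i j hj
    obtain ⟨b, hb⟩ := hI.bdd _ h5
    obtain ⟨x, ⟨⟨⟨⟨hx1, hx2⟩, hx3⟩, hx4⟩, hx5⟩⟩ :=
      ((((h2.and hv2).and h3).and (h.above b)).and (hg i)).exists
    apply hx1.2.2
    rw [hx2, hx3]
    refine ⟨?_, (ha2 i (π x)).le, hx5⟩
    by_contra hcon2
    exact absurd (hb _ ⟨ha i (π x), hcon2⟩) (not_lt.mpr (hx4.trans (ha2 i (π x))).le)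

theorem bound_of_cof (lam : Cardinal.{u}) (hcof : κ ≤ lam.ord.cof) (W : Set lam.ord.ToType)
    (hW : #W < κ) : ∃ i, ∀ k ∈ W, k < i := by
  by_contra hcon
  push Not at hcon
  have h1 : IsCofinal W := hcon
  have h2 := Order.cof_le h1
  rw [Ordinal.cof_toType] at h2
  exact absurd hW (not_lt.mpr (hcof.trans h2))

/-- The tower on `κ`. -/
theorem exists_outer (h : Meas κ U π) (hκ : ℵ₀ < κ) (lam : Cardinal.{u})
    (hcof : κ ≤ lam.ord.cof) (hκl : κ ≤ lam)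
    (h2 : lam < tNum κ) (h3 : PIU κ U lam)
    (F : lam.ord.ToType → Set κ.ord.ToType)
    (a : lam.ord.ToType → κ.ord.ToType → κ.ord.ToType)
    (ha2 : ∀ i ξ, ξ < a i ξ)
    (g : κ.ord.ToType → κ.ord.ToType)
    (T : lam.ord.ToType → κ.ord.ToType → Set κ.ord.ToType)
    (hT0 : ∀ i x, T i x ⊆ Iio (g x))
    (hT1 : ∀ i, ∀ k < i, ∀ᶠ x in (U : Filter κ.ord.ToType), T i x ⊆ F k)
    (hT2 : ∀ i, ∀ k < i, ∀ᶠ x in (U : Filter κ.ord.ToType), T i x ⊆ T k x)
    (hT3 : ∀ i, ∀ᶠ x in (U : Filter κ.ord.ToType), a i (π x) ∈ T i x) :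
    HasPI κ (range F) := by
  classical
  have hI := h.idx hκ
  have haleph : ℵ₀ ≤ lam := hκ.le.trans hκl
  let D : lam.ord.ToType → lam.ord.ToType → Set κ.ord.ToType := fun i k =>
    {x | (k < i → T i x ⊆ F k ∧ T i x ⊆ T k x) ∧ a i (π x) ∈ T i x}
  let C : (lam.ord.ToType × lam.ord.ToType) ⊕ κ.ord.ToType → Set κ.ord.ToType := fun q => q.elim
    (fun q => D q.1 q.2) (fun ξ => {x | ξ < π x})
  have hC : ∀ A ∈ range C, A ∈ U := by
    rintro _ ⟨q, rfl⟩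
    rcases q with ⟨i, k⟩ | ξ
    · change ∀ᶠ x in (U : Filter κ.ord.ToType), (k < i → T i x ⊆ F k ∧ T i x ⊆ T k x) ∧
        a i (π x) ∈ T i x
      by_cases hk : k < i
      · filter_upwards [hT1 i k hk, hT2 i k hk, hT3 i] with x hx1 hx2 hx3
        exact ⟨fun _ => ⟨hx1, hx2⟩, hx3⟩
      · filter_upwards [hT3 i] with x hx3
        exact ⟨fun h => absurd h hk, hx3⟩
    · exact h.above ξ
  have hcard : #(range C) ≤ lam := by
    refine mk_range_le.trans ?_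
    rw [mk_sum, mk_prod]
    simp only [lift_id]
    refine add_le_of_le haleph ?_ ?_
    · rw [show #(lam.ord.ToType) = lam by simp]
      exact (mul_eq_self haleph).le
    · rw [hI.card]; exact hκl
  obtain ⟨Z, hZ, hZ2⟩ := h3 (range C) hC hcard
  let G : lam.ord.ToType → Set κ.ord.ToType := fun i => ⋃ x ∈ Z, T i x
  have hTc : ∀ i x, #(T i x) < κ := fun i x =>
    (mk_le_mk_of_subset (hT0 i x)).trans_lt (hI.small _)
  have hZD : ∀ i k, #(↥(Z \ D i k)) < κ := fun i k => hZ2 _ ⟨Sum.inl (i, k), rfl⟩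
  have hZπ : ∀ ξ, #(↥(Z \ {x | ξ < π x})) < κ := fun ξ => hZ2 _ ⟨Sum.inr ξ, rfl⟩
  have hGc : ∀ i, #(G i) = κ := by
    intro i
    refine hI.card_of_unbdd _ ?_
    intro b
    have h4 : #(↥(Z \ (D i i ∩ {x | b < π x}))) < κ := by
      refine (mk_le_mk_of_subset ?_).trans_lt (hI.small_union _ _ (hZD i i) (hZπ b))
      intro x hx
      by_cases hD : x ∈ D i i
      · exact Or.inr ⟨hx.1, fun hb => hx.2 ⟨hD, hb⟩⟩
      · exact Or.inl ⟨hx.1, hD⟩
    have h5 := hI.card_diff Z _ hZ h4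
    have h6 : (Z ∩ (D i i ∩ {x | b < π x})).Nonempty := by
      rw [nonempty_iff_ne_empty]
      intro h7
      rw [h7] at h5
      simp only [mk_eq_zero] at h5
      exact (aleph0_pos.trans hκ).ne h5
    obtain ⟨x, hx1, hx2, hx3⟩ := h6
    refine ⟨a i (π x), ?_, (lt_trans hx3 (ha2 i (π x))).le⟩
    simp only [G, mem_iUnion]
    exact ⟨x, hx1, hx2.2⟩
  have hGF : ∀ i, ∀ k < i, AlmostSub κ (G i) (F k) := by
    intro i k hk
    refine (mk_le_mk_of_subset ?_).trans_lt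
      (hI.small_biUnion (Z \ D i k) (hZD i k) (fun x => T i x) (fun x _ => hTc i x))
    rintro z ⟨hz, hzF⟩
    simp only [G, mem_iUnion] at hz ⊢
    obtain ⟨x, hx, hzx⟩ := hz
    exact ⟨x, ⟨hx, fun hD => hzF ((hD.1 hk).1 hzx)⟩, hzx⟩
  have hGG : ∀ i, ∀ k < i, AlmostSub κ (G i) (G k) := by
    intro i k hk
    refine (mk_le_mk_of_subset ?_).trans_lt
      (hI.small_biUnion (Z \ D i k) (hZD i k) (fun x => T i x) (fun x _ => hTc i x))
    rintro z ⟨hz, hzF⟩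
    simp only [G, mem_iUnion] at hz hzF ⊢
    obtain ⟨x, hx, hzx⟩ := hz
    exact ⟨x, ⟨hx, fun hD => hzF ⟨x, hx, (hD.1 hk).2 hzx⟩⟩, hzx⟩
  have hsip : SIP κ (range G) :=
    sip_of_decr hI hI.card.le G hGc hGG (bound_of_cof lam hcof)
  have hrange : #(range G) < tNum κ := by
    refine mk_range_le.trans_lt ?_
    simpa using h2
  obtain ⟨A, hA, hA2⟩ := hasPI_of_lt_tNum lam.ord G hrange (fun i j hij => hGG j i hij) hsip
  refine ⟨A, hA, ?_⟩
  rintro _ ⟨k, rfl⟩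
  obtain ⟨i, hi⟩ := bound_of_cof lam hcof {k} (by simpa using one_lt_aleph0.trans hκ)
  exact (hA2 _ ⟨i, rfl⟩).trans hI (hGF i k (hi k rfl))

/-- Theorem A in its main form. -/
theorem main (h : Meas κ U π) (hκ : ℵ₀ < κ) (lam : Cardinal.{u})
    (hcof : κ ≤ lam.ord.cof) (hκl : κ ≤ lam) (h1 : lam ≤ pNum κ)
    (h2 : lam < tNum κ) (h3 : PIU κ U lam) (h4 : lam ≤ lUlt κ U π)
    (F : lam.ord.ToType → Set κ.ord.ToType) (hF : SIP κ (range F)) : HasPI κ (range F) := by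
  classical
  have hI := h.idx hκ
  have hsl : ∀ μ < κ, (2 : Cardinal.{u}) ^ μ < κ := fun μ hμ => two_power_lt hI.card h μ hμ
  obtain ⟨y, hy, hy2, hinj⟩ := h.exists_seq hκ lam (h1.trans (pNum_le κ))
  have hsmall : ∀ i : lam.ord.ToType, #(Iio i) < lam := fun i => by simpa using mk_Iio_lt i
  have hA : ∀ i : lam.ord.ToType, ∃ A : Set κ.ord.ToType, #A = κ ∧
      ∀ k < i, AlmostSub κ A (F k) := by
    intro i
    obtain ⟨A, hA, hA2⟩ := hasPI_of_lt_pNum hκ hI.card (F '' Iio i)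
      (mk_image_le.trans_lt ((hsmall i).trans_le h1)) (hF.mono (image_subset_range _ _))
    exact ⟨A, hA, fun k hk => hA2 _ ⟨k, hk, rfl⟩⟩
  choose A hAc hAF using hA
  have ha : ∀ i ξ, ∃ a ∈ A i, ξ < a := fun i ξ => hI.unbdd_of_card (A i) (hAc i) ξ
  choose a haA ha2 using ha
  obtain ⟨g, hg⟩ := exists_bound h hI lam h3 (by simp) hκl a
  obtain ⟨enc, henc⟩ := exists_enc hI hsl
  have hΨ : ∀ i : lam.ord.ToType, ∃ Ψ : κ.ord.ToType → Set κ.ord.ToType → Set κ.ord.ToType,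
      ∀ k ∈ Iio i, ∀ᶠ x in (U : Filter κ.ord.ToType),
      Ψ x (y k ∩ Iio (π x)) = F k ∩ Ico (π x) (g x) := by
    intro i
    refine fun_bdd h (Iio i) y
      (fun B => coding h hI hsl (Iio i) ((hsmall i).trans_le h1) y hinj.injOn B)
      enc henc (fun k x => F k ∩ Ico (π x) (g x)) ?_ ?_
    · intro k x
      exact ⟨g x, fun z hz => hz.2.2⟩
    · exact localised_of_lt_lUlt _ (mk_image_le.trans_lt ((hsmall i).trans_le h4))
  choose Ψ hΨ2 using hΨ
  obtain ⟨T, hT0, hT1, hT2, hT3⟩ :=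
    exists_inner h hκ lam y hy hy2 F A hAF a haA ha2 g hg Ψ hΨ2
  exact exists_outer h hκ lam hcof hκl h2 h3 F a ha2 g T hT0 hT1 hT2 hT3

end

end Pool.Agent.EFF
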