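import Pool.Agent.Lib.MP_eff308_lc.EA.Coding

/-!
The cardinal invariants: the pseudo-intersection number and the tower number of `κ`, the
pseudo-intersection number of an ultrafilter and its localisation number.
-/

open Cardinal Set Filter

namespace Pool.Agent.EFF

universe u

/-- The pseudo-intersection number `p(κ)`. -/
noncomputable def pNum (κ : Cardinal.{u}) : Cardinal.{u} :=
  sInf {μ | ∃ F : Set (Set κ.ord.ToType), #F = μ ∧ (∀ A ∈ F, #A = κ) ∧ SIP κ F ∧ ¬ HasPI κ F}

/-- The tower number `t(κ)`. -/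
noncomputable def tNum (κ : Cardinal.{u}) : Cardinal.{u} :=
  sInf {μ | ∃ (δ : Ordinal.{u}) (T : δ.ToType → Set κ.ord.ToType), #(range T) = μ ∧
    (∀ i j, i < j → AlmostSub κ (T j) (T i)) ∧ SIP κ (range T) ∧ ¬ HasPI κ (range T)}

/-- The least number of members of `U` without a pseudo-intersection. -/
noncomputable def pUlt (κ : Cardinal.{u}) (U : Ultrafilter κ.ord.ToType) : Cardinal.{u} :=
  sInf {μ | ∃ F : Set (Set κ.ord.ToType), #F = μ ∧ (∀ A ∈ F, A ∈ U) ∧ ¬ HasPI κ F}

/-- The family `H` of functions is localised, modulo `U`, by one slalom whose value at `x` has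
size at most `2 ^ |π x|`. -/
def Localised {α : Type u} [LinearOrder α] (U : Ultrafilter α) (π : α → α) (H : Set (α → α)) :
    Prop :=
  ∃ S : α → Set α, (∀ x, #(S x) ≤ 2 ^ #(Iio (π x))) ∧
    ∀ h ∈ H, ∀ᶠ x in (U : Filter α), h x ∈ S x

/-- The least number of functions that are not localised modulo `U`. -/
noncomputable def lUlt (κ : Cardinal.{u}) (U : Ultrafilter κ.ord.ToType)
    (π : κ.ord.ToType → κ.ord.ToType) : Cardinal.{u} :=
  sInf {μ | ∃ H : Set (κ.ord.ToType → κ.ord.ToType), #H = μ ∧ ¬ Localised U π H}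

variable {κ : Cardinal.{u}}

/-- The pseudo-intersection number seen on any set of size `κ`. -/
theorem hasPI_of_lt_pNum (hκ : ℵ₀ < κ) {β : Type u} (hβ : #β = κ) (G : Set (Set β))
    (hG : #G < pNum κ) (hs : SIP κ G) : HasPI κ G := by
  classical
  have hc : #κ.ord.ToType = #β := by simp [hβ]
  obtain ⟨e⟩ : Nonempty (κ.ord.ToType ≃ β) := Cardinal.eq.mp hc
  let F : Set (Set κ.ord.ToType) := (fun A => e ⁻¹' A) '' G
  have hF : #F ≤ #G := mk_image_le
  have hpre : ∀ A : Set β, #(e ⁻¹' A) = #A := fun A => by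
    rw [← Cardinal.mk_image_eq (s := e ⁻¹' A) e.injective, e.image_preimage]
  have hSIP : SIP κ F := by
    intro G' hG' hc'
    have h1 : ∃ G'' : Set (Set β), G'' ⊆ G ∧ G' = (fun A => e ⁻¹' A) '' G'' := by
      refine ⟨{A ∈ G | e ⁻¹' A ∈ G'}, fun A hA => hA.1, ?_⟩
      ext B
      constructor
      · intro hB
        obtain ⟨A, hA, rfl⟩ := hG' hB
        exact ⟨A, ⟨hA, hB⟩, rfl⟩
      · rintro ⟨A, ⟨_, hA⟩, rfl⟩
        exact hA
    obtain ⟨G'', hG'', rfl⟩ := h1
    have hinj : Function.Injective (fun A : Set β => e ⁻¹' A) := by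
      intro A B hAB
      simpa using congrArg (fun s => e '' s) hAB
    have h2 : #(↥((fun A => e ⁻¹' A) '' G'')) = #G'' := mk_image_eq hinj
    rw [h2] at hc'
    have h3 := hs G'' hG'' hc'
    have h4 : ⋂₀ ((fun A => e ⁻¹' A) '' G'') = e ⁻¹' (⋂₀ G'') := by
      ext z; simp
    rw [h4, hpre]
    exact h3
  have hPI : HasPI κ F := by
    by_contra hcon
    have : pNum κ ≤ #F := by
      refine csInf_le' ⟨F, rfl, ?_, hSIP, hcon⟩
      intro A hA
      have := hSIP {A} (by simpa using hA) (by simpa using one_lt_aleph0.trans hκ)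
      simpa using this
    exact absurd hG (not_lt.mpr (this.trans hF))
  obtain ⟨A, hA, hA2⟩ := hPI
  refine ⟨e '' A, by rw [mk_image_eq e.injective, hA], ?_⟩
  intro B hB
  have h1 := hA2 (e ⁻¹' B) ⟨B, hB, rfl⟩
  unfold AlmostSub at h1 ⊢
  have h2 : e '' A \ B = e '' (A \ e ⁻¹' B) := by
    rw [image_sdiff e.injective, e.image_preimage]
  rw [h2, mk_image_eq e.injective]
  exact h1

theorem hasPI_of_lt_pUlt {U : Ultrafilter κ.ord.ToType} (F : Set (Set κ.ord.ToType))
    (hF : #F < pUlt κ U) (hU : ∀ A ∈ F, A ∈ U) : HasPI κ F := by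
  by_contra hcon
  have : pUlt κ U ≤ #F := csInf_le' ⟨F, rfl, hU, hcon⟩
  exact absurd hF (not_lt.mpr this)

theorem localised_of_lt_lUlt {U : Ultrafilter κ.ord.ToType} {π : κ.ord.ToType → κ.ord.ToType}
    (H : Set (κ.ord.ToType → κ.ord.ToType)) (hH : #H < lUlt κ U π) : Localised U π H := by
  by_contra hcon
  have : lUlt κ U π ≤ #H := csInf_le' ⟨H, rfl, hcon⟩
  exact absurd hH (not_lt.mpr this)

theorem hasPI_of_lt_tNum (δ : Ordinal.{u}) (T : δ.ToType → Set κ.ord.ToType)
    (hT : #(range T) < tNum κ) (hd : ∀ i j, i < j → AlmostSub κ (T j) (T i))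
    (hs : SIP κ (range T)) : HasPI κ (range T) := by
  by_contra hcon
  have : tNum κ ≤ #(range T) := csInf_le' ⟨δ, T, rfl, hd, hs, hcon⟩
  exact absurd hT (not_lt.mpr this)

end Pool.Agent.EFF
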