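import Pool.Agent.Lib.MP_eff308_lc.EA.Num

/-!
The well-order of the subsets of `κ` modulo `U`, induced from a fixed well-order, and its initial
segments.
-/

open Cardinal Set Filter

namespace Pool.Agent.EFF

universe u

variable {α : Type u} [LinearOrder α] {κ : Cardinal.{u}} {U : Ultrafilter α} {π : α → α}

/-- The order of the subsets of `κ` as elements of the ultrapower. -/
def Rel (U : Ultrafilter α) (π : α → α) (y y' : Set α) : Prop :=
  ∀ᶠ x in (U : Filter α), WellOrderingRel (y ∩ Iio (π x)) (y' ∩ Iio (π x))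

theorem Meas.isWellOrder_rel (h : Meas κ U π) (hκ : ℵ₀ < κ) : IsWellOrder (Set α) (Rel U π) where
  wf := by
    rw [wellFounded_iff_isEmpty_descending_chain]
    refine ⟨?_⟩
    rintro ⟨f, hf⟩
    have h1 : ∀ᶠ x in (U : Filter α), ∀ n : ℕ,
        WellOrderingRel (f (n + 1) ∩ Iio (π x)) (f n ∩ Iio (π x)) :=
      h.ev_nat hκ (fun n x => WellOrderingRel (f (n + 1) ∩ Iio (π x)) (f n ∩ Iio (π x))) hf
    obtain ⟨x, hx⟩ := h1.exists
    have h2 : WellFounded (WellOrderingRel : Set α → Set α → Prop) :=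
      WellOrderingRel.isWellOrder.wf
    rw [wellFounded_iff_isEmpty_descending_chain] at h2
    exact h2.false ⟨fun n => f n ∩ Iio (π x), hx⟩
  trichotomous := by
    intro y y' h1 h2
    have h3 : ∀ᶠ x in (U : Filter α), ¬ WellOrderingRel (y ∩ Iio (π x)) (y' ∩ Iio (π x)) :=
      Ultrafilter.eventually_not.mpr h1
    have h4 : ∀ᶠ x in (U : Filter α), ¬ WellOrderingRel (y' ∩ Iio (π x)) (y ∩ Iio (π x)) :=
      Ultrafilter.eventually_not.mpr h2
    refine h.real_unique y y' ?_
    filter_upwards [h3, h4] with x hx1 hx2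
    rcases trichotomous_of WellOrderingRel (y ∩ Iio (π x)) (y' ∩ Iio (π x)) with h5 | h5 | h5
    · exact absurd h5 hx1
    · exact h5
    · exact absurd h5 hx2

/-- The first `λ` elements of the order. -/
theorem Meas.exists_seq (h : Meas κ U π) (hκ : ℵ₀ < κ) (lam : Cardinal.{u})
    (hlam : lam ≤ #(Set α)) :
    ∃ y : lam.ord.ToType → Set α, (∀ i j, i < j → Rel U π (y i) (y j)) ∧
      (∀ z i, Rel U π z (y i) → ∃ j < i, z = y j) ∧ Function.Injective y := by
  have := h.isWellOrder_rel hκ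
  have h1 : lam.ord ≤ Ordinal.type (Rel U π) :=
    (ord_le_ord.mpr hlam).trans (ord_le_type _)
  rw [← Ordinal.type_toType lam.ord, Ordinal.type_le_iff] at h1
  obtain ⟨f⟩ := h1
  refine ⟨f, fun i j hij => f.map_rel_iff.mpr hij, ?_, f.injective⟩
  intro z i hz
  obtain ⟨j, hj⟩ := f.mem_range_of_rel hz
  refine ⟨j, ?_, hj.symm⟩
  rw [← hj] at hz
  exact f.map_rel_iff.mp hz

/-- A choice of sets below `y` modulo `U` is a choice of the traces of one set below `y`. -/
theorem Meas.exists_below (h : Meas κ U π) (y : Set α) (w : α → Set α)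
    (hw : ∀ᶠ x in (U : Filter α), w x ⊆ Iio (π x))
    (hw2 : ∀ᶠ x in (U : Filter α), WellOrderingRel (w x) (y ∩ Iio (π x))) :
    ∃ z : Set α, Rel U π z y ∧ ∀ᶠ x in (U : Filter α), w x = z ∩ Iio (π x) := by
  obtain ⟨z, hz⟩ := h.exists_real w hw
  refine ⟨z, ?_, hz⟩
  filter_upwards [hw2, hz] with x h1 h2
  rw [← h2]
  exact h1

end Pool.Agent.EFF
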