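import Pool.Agent.Lib.MP_eff308_lc.EA.Main

/-!
The ultrafilter itself has no pseudo-intersection; pseudo-intersections inside the ultrafilter.
-/

open Cardinal Set Filter

namespace Pool.Agent.EFF

universe u

variable {κ : Cardinal.{u}} {U : Ultrafilter κ.ord.ToType} {π : κ.ord.ToType → κ.ord.ToType}

theorem Meas.card_mem (h : Meas κ U π) (hκ : ℵ₀ < κ) (A : Set κ.ord.ToType) (hA : A ∈ U) :
    #A = κ := by
  have hI := h.idx hκ
  rcases lt_or_eq_of_le ((mk_set_le A).trans hI.card.le) with h1 | h1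
  · obtain ⟨x, hx1, hx2⟩ := ((h.small_null A h1).and hA).exists
    exact absurd hx2 hx1
  · exact h1

theorem Meas.sip (h : Meas κ U π) (hκ : ℵ₀ < κ) (F : Set (Set κ.ord.ToType))
    (hF : ∀ A ∈ F, A ∈ U) : SIP κ F :=
  fun _ hG hc => h.card_mem hκ _ (h.compl _ hc fun _ hs => hF _ (hG hs))

/-- The whole ultrafilter has no pseudo-intersection. -/
theorem not_hasPI_U (hκ : ℵ₀ < κ) : ¬ HasPI κ {A : Set κ.ord.ToType | A ∈ U} := by
  rintro ⟨A, hA, hA2⟩
  have h1 : #A = #(A ⊕ A) := by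
    rw [mk_sum]
    simp only [lift_id]
    rw [hA]
    exact (add_eq_self hκ.le).symm
  obtain ⟨e⟩ := Cardinal.eq.mp h1
  let B : Set κ.ord.ToType := range fun a : A => (e.symm (Sum.inl a)).1
  let C : Set κ.ord.ToType := range fun a : A => (e.symm (Sum.inr a)).1
  have hB : #B = κ :=
    (mk_range_eq _ (fun a b hab => Sum.inl_injective
      (e.symm.injective (Subtype.val_injective hab)))).trans hA
  have hC : #C = κ :=
    (mk_range_eq _ (fun a b hab => Sum.inr_injective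
      (e.symm.injective (Subtype.val_injective hab)))).trans hA
  have hBA : B ⊆ A := by
    rintro _ ⟨a, rfl⟩
    exact (e.symm (Sum.inl a)).2
  have hCA : C ⊆ A \ B := by
    rintro _ ⟨a, rfl⟩
    refine ⟨(e.symm (Sum.inr a)).2, ?_⟩
    rintro ⟨b, hb⟩
    have := e.symm.injective (Subtype.val_injective hb)
    simp at this
  by_cases hU : B ∈ U
  · have h2 := hA2 B hU
    exact absurd ((mk_le_mk_of_subset hCA).trans_lt h2) (by rw [hC]; exact lt_irrefl _)
  · have h2 := hA2 Bᶜ (Ultrafilter.compl_mem_iff_notMem.mpr hU)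
    have h3 : B ⊆ A \ Bᶜ := fun x hx => ⟨hBA hx, fun h => h hx⟩
    exact absurd ((mk_le_mk_of_subset h3).trans_lt h2) (by rw [hB]; exact lt_irrefl _)

theorem pUlt_mem (hκ : ℵ₀ < κ) : ∃ F : Set (Set κ.ord.ToType), #F = pUlt κ U ∧
    (∀ A ∈ F, A ∈ U) ∧ ¬ HasPI κ F :=
  csInf_mem (s := {μ | ∃ F : Set (Set κ.ord.ToType), #F = μ ∧ (∀ A ∈ F, A ∈ U) ∧ ¬ HasPI κ F})
    ⟨_, _, rfl, fun _ hA => hA, not_hasPI_U hκ⟩

theorem pNum_le_pUlt (h : Meas κ U π) (hκ : ℵ₀ < κ) : pNum κ ≤ pUlt κ U := by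
  obtain ⟨F, hF, hFU, hFP⟩ := pUlt_mem (U := U) hκ
  exact csInf_le' ⟨F, hF, fun A hA => h.card_mem hκ A (hFU A hA), h.sip hκ F hFU, hFP⟩

/-- If fewer than `lam` members of `U` have a pseudo-intersection in `U` and there is no short
tower, then `lam` members of `U` have a pseudo-intersection. -/
theorem piu_of_point (h : Meas κ U π) (hκ : ℵ₀ < κ) (lam : Cardinal.{u})
    (hcof : κ ≤ lam.ord.cof) (h2 : lam < tNum κ)
    (hP : ∀ G : Set (Set κ.ord.ToType), (∀ A ∈ G, A ∈ U) → #G < lam →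
      ∃ A ∈ U, ∀ B ∈ G, AlmostSub κ A B) : PIU κ U lam := by
  classical
  have hI := h.idx hκ
  intro G hG hc
  rcases G.eq_empty_or_nonempty with hG0 | hG0
  · refine ⟨univ, ?_, ?_⟩
    · rw [mk_univ, hI.card]
    · intro B hB
      rw [hG0] at hB
      exact absurd hB (notMem_empty B)
  have hl : #(lam.ord.ToType) = lam := by simp
  obtain ⟨X, hX⟩ : ∃ X : lam.ord.ToType → Set κ.ord.ToType, range X = G := by
    have : Nonempty G := hG0.to_subtype
    rw [← hl, Cardinal.le_def] at hc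
    obtain ⟨e⟩ := hc
    refine ⟨fun i => (Function.invFun e i).1, ?_⟩
    ext A
    constructor
    · rintro ⟨i, rfl⟩
      exact (Function.invFun e i).2
    · intro hA
      refine ⟨e ⟨A, hA⟩, ?_⟩
      simp only [Function.leftInverse_invFun e.injective ⟨A, hA⟩]
  have hsmall : ∀ i : lam.ord.ToType, #(Iio i) < lam := fun i => by simpa using mk_Iio_lt i
  have hXU : ∀ i, X i ∈ U := fun i => hG _ (hX ▸ ⟨i, rfl⟩)
  let N : Type u := {A : Set κ.ord.ToType // A ∈ U}
  have hstep : ∀ (i : lam.ord.ToType) (ih : (k : lam.ord.ToType) → k < i → N),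
      ∃ A : N, ∀ k, ∀ hk : k < i, AlmostSub κ A.1 ((ih k hk).1 ∩ X k) := by
    intro i ih
    obtain ⟨A, hA, hA2⟩ := hP (range fun k : Iio i => (ih k.1 k.2).1 ∩ X k.1) (by
      rintro _ ⟨k, rfl⟩
      exact Filter.inter_mem (ih k.1 k.2).2 (hXU k.1)) (mk_range_le.trans_lt (hsmall i))
    exact ⟨⟨A, hA⟩, fun k hk => hA2 _ ⟨⟨k, hk⟩, rfl⟩⟩
  choose step hstep2 using hstep
  have wf : WellFounded ((· < ·) : lam.ord.ToType → lam.ord.ToType → Prop) := wellFounded_lt
  let Y : lam.ord.ToType → N := wf.fix step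
  have hY : ∀ i, ∀ k < i, AlmostSub κ (Y i).1 ((Y k).1 ∩ X k) := by
    intro i k hk
    have h3 : Y i = step i (fun k _ => Y k) := wf.fix_eq step i
    rw [h3]
    exact hstep2 i (fun k _ => Y k) k hk
  have hd : ∀ i j, i < j → AlmostSub κ (Y j).1 (Y i).1 := by
    intro i j hij
    exact (hY j i hij).trans hI (AlmostSub.of_subset hI inter_subset_left)
  have hPI := hasPI_of_lt_tNum lam.ord (fun i => (Y i).1)
    (mk_range_le.trans_lt (by rw [hl]; exact h2)) hd
    (h.sip hκ _ (by rintro _ ⟨i, rfl⟩; exact (Y i).2))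
  obtain ⟨A, hA, hA2⟩ := hPI
  refine ⟨A, hA, ?_⟩
  intro B hB
  rw [← hX] at hB
  obtain ⟨k, rfl⟩ := hB
  obtain ⟨i, hi⟩ := bound_of_cof lam hcof {k} (by simpa using one_lt_aleph0.trans hκ)
  exact ((hA2 _ ⟨i, rfl⟩).trans hI (hY i k (hi k rfl))).trans hI
    (AlmostSub.of_subset hI inter_subset_right)

/-- If `p(κ) < t(κ)` and fewer than `p(κ)` functions are localised, then some `p(κ)` members of
`U` have no pseudo-intersection. -/
theorem not_piu (h : Meas κ U π) (hκ : ℵ₀ < κ) (hpt : pNum κ < tNum κ)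
    (hcof : κ ≤ (pNum κ).ord.cof) (h4 : pNum κ ≤ lUlt κ U π) : ¬ PIU κ U (pNum κ) := by
  intro h3
  have hκl : κ ≤ pNum κ := hcof.trans (Ordinal.cof_ord_le _)
  have hne : {μ | ∃ F : Set (Set κ.ord.ToType), #F = μ ∧
      (∀ A ∈ F, #A = κ) ∧ SIP κ F ∧ ¬ HasPI κ F}.Nonempty := by
    by_contra hcon
    rw [not_nonempty_iff_eq_empty] at hcon
    have h0 : pNum κ = 0 := by rw [pNum, hcon, Cardinal.sInf_empty]
    rw [h0] at hκl
    exact absurd (aleph0_pos.trans hκ) (not_lt.mpr hκl)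
  obtain ⟨F, hF, _, hFS, hFP⟩ := csInf_mem hne
  have hF' : #F = pNum κ := hF
  have hl : #((pNum κ).ord.ToType) = #F := by rw [hF']; simp
  obtain ⟨e⟩ := Cardinal.eq.mp hl
  have hrange : range (fun i => (e i).1) = F := by
    ext A
    constructor
    · rintro ⟨i, rfl⟩
      exact (e i).2
    · intro hA
      exact ⟨e.symm ⟨A, hA⟩, by simp⟩
  have := main h hκ (pNum κ) hcof hκl le_rfl hpt h3 h4 (fun i => (e i).1)
    (by rw [hrange]; exact hFS)
  rw [hrange] at this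
  exact hFP this

end Pool.Agent.EFF
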