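import Pool.Agent.Lib.MP_eff308_lc.EA.Inner

/-!
A tower of length `κ⁺` that codes `κ⁺` decisions.
-/

open Cardinal Set Filter

namespace Pool.Agent.EFF

universe u

section

variable {α : Type u} [LinearOrder α] {κ : Cardinal.{u}} {U : Ultrafilter α} {π : α → α}
variable {L : Type u} [LinearOrder L]

/-- The part of `d` enumerated below `c`. -/
def av (r : L → L → α) (d : L) (c : α) : Set L := {i | i < d ∧ r d i < c}

/-- The levels at which the enumerations are coherent and the traces distinct. -/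
def Ev (r : L → L → α) (y : L → Set α) (d : L) : Set α :=
  {c | (∀ e ∈ av r d c, av r e c = av r d c ∩ Iio e) ∧
    ∀ i ∈ av r d c, ∀ j ∈ av r d c, tr c (y i) = tr c (y j) → i = j}

theorem av_ev (h : Meas κ U π) (r : L → L → α) (hr : ∀ d, InjOn (r d) (Iio d)) (e d : L)
    (hed : e < d) : ∀ᶠ x in (U : Filter α), av r e (π x) = av r d (π x) ∩ Iio e := by
  have h1 := h.diag_inj (Iio e) (r e) (hr e) (fun i x => r d i < π x) (fun i _ => h.above _)
  have h2 := h.diag_inj (Iio e) (r d) ((hr d).mono (Iio_subset_Iio hed.le))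
    (fun i x => r e i < π x) (fun i _ => h.above _)
  filter_upwards [h1, h2] with x hx1 hx2
  ext i
  constructor
  · rintro ⟨hi1, hi2⟩
    exact ⟨⟨hi1.trans hed, hx1 i hi1 hi2⟩, hi1⟩
  · rintro ⟨⟨_, hi2⟩, hi3⟩
    exact ⟨hi3, hx2 i hi3 hi2⟩

theorem Ev_ev (h : Meas κ U π) (r : L → L → α) (hr : ∀ d, InjOn (r d) (Iio d))
    (y : L → Set α) (hy : Function.Injective y) (d : L) :
    ∀ᶠ x in (U : Filter α), π x ∈ Ev r y d := by
  have h1 := h.diag_inj (Iio d) (r d) (hr d)
    (fun e x => av r e (π x) = av r d (π x) ∩ Iio e) (fun e he => av_ev h r hr e d he)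
  have h2 : ∀ i ∈ Iio d, ∀ j ∈ Iio d, ∀ᶠ x in (U : Filter α),
      tr (π x) (y i) = tr (π x) (y j) → i = j := by
    intro i _ j _
    by_cases hij : i = j
    · exact Eventually.of_forall fun _ _ => hij
    · have hne : y i ≠ y j := fun h => hij (hy h)
      have : ∃ η, ¬ (η ∈ y i ↔ η ∈ y j) := by
        by_contra hcon
        push Not at hcon
        exact hne (Set.ext hcon)
      obtain ⟨η, hη⟩ := this
      filter_upwards [h.above η] with x hx htr
      exact absurd (by simpa [mem_tr] using Set.ext_iff.mp htr ⟨η, hx⟩) hη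
  have h3 : ∀ i ∈ Iio d, ∀ᶠ x in (U : Filter α), ∀ j ∈ Iio d, r d j < π x →
      tr (π x) (y i) = tr (π x) (y j) → i = j :=
    fun i hi => h.diag_inj (Iio d) (r d) (hr d) _ (h2 i hi)
  have h4 := h.diag_inj (Iio d) (r d) (hr d) _ h3
  filter_upwards [h1, h4] with x hx1 hx4
  exact ⟨fun e he => hx1 e he.1 he.2, fun i hi j hj => hx4 i hi.1 hi.2 j hj.1 hj.2⟩

/-- The coding tower. -/
def Tv (r : L → L → α) (y : L → Set α) (B : Set L) (d : L) : Set (CS α) :=
  {p | p.1 ∈ Ev r y d ∧ ∀ i ∈ av r d p.1, (tr p.1 (y i) ∈ p.2 ↔ i ∈ B)}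

theorem Tv_mono (r : L → L → α) (y : L → Set α) (B : Set L) (e d : L) (hed : e < d)
    (p : CS α) (hp : p ∈ Tv r y B d) (hp2 : r d e < p.1) : p ∈ Tv r y B e := by
  obtain ⟨⟨h1, h2⟩, h3⟩ := hp
  have he : e ∈ av r d p.1 := ⟨hed, hp2⟩
  have h4 := h1 e he
  have hsub : av r e p.1 ⊆ av r d p.1 := by
    rw [h4]; exact inter_subset_left
  refine ⟨⟨?_, fun i hi j hj => h2 i (hsub hi) j (hsub hj)⟩, fun i hi => h3 i (hsub hi)⟩
  intro f hf
  rw [h1 f (hsub hf), h4, inter_assoc]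
  congr 1
  ext i
  constructor
  · intro hi
    exact ⟨lt_trans hi hf.1, hi⟩
  · intro hi
    exact hi.2

theorem Tv_card (h : Meas κ U π) (hI : Idx α κ) (hsl : ∀ μ < κ, (2 : Cardinal.{u}) ^ μ < κ)
    (r : L → L → α) (hr : ∀ d, InjOn (r d) (Iio d))
    (y : L → Set α) (hy : Function.Injective y) (B : Set L) (d : L) :
    #(Tv r y B d) = κ := by
  have h1 : #(Ev r y d) = κ := by
    refine hI.card_of_unbdd _ ?_
    intro b
    obtain ⟨x, hx1, hx2⟩ := ((Ev_ev h r hr y hy d).and (h.above b)).exists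
    exact ⟨π x, hx1, hx2.le⟩
  have hsub : (fun c : α => (⟨c, {w | ∃ i ∈ av r d c, i ∈ B ∧ w = tr c (y i)}⟩ : CS α)) ''
      (Ev r y d) ⊆ Tv r y B d := by
    rintro _ ⟨c, hc, rfl⟩
    refine ⟨hc, ?_⟩
    intro i hi
    constructor
    · rintro ⟨j, hj, hB, htr⟩
      rw [hc.2 i hi j hj htr]; exact hB
    · intro hB
      exact ⟨i, hi, hB, rfl⟩
  have hle := mk_le_mk_of_subset hsub
  rw [mk_image_eq (fun a b hab => by simpa using congrArg Sigma.fst hab), h1] at hle
  exact le_antisymm ((mk_set_le _).trans (card_CS hI hsl).le) hle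

end

section

variable {κ : Cardinal.{u}} {U : Ultrafilter κ.ord.ToType} {π : κ.ord.ToType → κ.ord.ToType}

theorem codes_tower (h : Meas κ U π) (hκ : ℵ₀ < κ)
    (hT : ∀ T : (Order.succ κ).ord.ToType → Set κ.ord.ToType,
      (∀ i j, i < j → AlmostSub κ (T j) (T i)) → SIP κ (range T) → HasPI κ (range T))
    (y : (Order.succ κ).ord.ToType → Set κ.ord.ToType) (hy : Function.Injective y) :
    Codes U π univ y := by
  classical
  intro B
  have hI := h.idx hκ
  have hsl : ∀ μ < κ, (2 : Cardinal.{u}) ^ μ < κ := fun μ hμ => two_power_lt hI.card h μ hμ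
  obtain ⟨a0⟩ := hI.ne
  have hr0 : ∀ d : (Order.succ κ).ord.ToType, ∃ r : (Order.succ κ).ord.ToType → κ.ord.ToType,
      InjOn r (Iio d) := by
    intro d
    have h1 : #(Iio d) < Order.succ κ := by simpa using mk_Iio_lt d
    have h2 : #(Iio d) ≤ #κ.ord.ToType := by rw [hI.card]; exact Order.lt_succ_iff.mp h1
    obtain ⟨e⟩ := h2
    refine ⟨fun i => if hi : i < d then e ⟨i, hi⟩ else a0, ?_⟩
    intro i hi j hj hij
    have hi' : i < d := hi
    have hj' : j < d := hj
    simp only [dif_pos hi', dif_pos hj'] at hij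
    simpa using e.injective hij
  choose r hr using hr0
  have hcof : κ ≤ (Order.succ κ).ord.cof := by
    rw [(isRegular_succ hκ.le).cof_ord]
    exact Order.le_succ κ
  have hb := bound_of_cof (κ := κ) (Order.succ κ) hcof
  have hd : ∀ i, ∀ k < i, AlmostSub κ (Tv r y B i) (Tv r y B k) := by
    intro i k hk
    refine (mk_le_mk_of_subset ?_).trans_lt (CS_small hI hsl (r i k))
    rintro p ⟨hp1, hp2⟩
    by_contra hcon
    exact hp2 (Tv_mono r y B k i hk p hp1 (not_le.mp hcon))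
  have hsip : SIP κ (range (Tv r y B)) :=
    sip_of_decr hI (card_CS hI hsl).le (Tv r y B) (Tv_card h hI hsl r hr y hy B) hd hb
  have hc : #κ.ord.ToType = #(CS κ.ord.ToType) := by rw [hI.card, card_CS hI hsl]
  obtain ⟨e⟩ := Cardinal.eq.mp hc
  have hd2 : ∀ i j, i < j → AlmostSub κ (e ⁻¹' Tv r y B j) (e ⁻¹' Tv r y B i) := by
    intro i j hij
    have h1 := hd j i hij
    unfold AlmostSub at h1 ⊢
    rw [← mk_image_eq e.injective, image_sdiff e.injective, e.image_preimage, e.image_preimage]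
    exact h1
  obtain ⟨P, hP, hP2⟩ := hasPI_transfer e (Tv r y B)
    (hT (fun i => e ⁻¹' Tv r y B i) hd2 (sip_transfer e _ hsip))
  refine decode h hI hsl univ B y P hP ?_
  intro k _
  obtain ⟨d, hkd⟩ := hb {k} (by simpa using one_lt_aleph0.trans hκ)
  have hkd' : k < d := hkd k rfl
  obtain ⟨b, hb2⟩ := hI.bdd (Sigma.fst '' (P \ Tv r y B d))
    (mk_image_le.trans_lt (hP2 _ ⟨d, rfl⟩))
  obtain ⟨ξ, hξ⟩ := hI.bdd {b, r d k} (by
    refine mk_insert_le.trans_lt (add_lt_of_lt hI.unc.le ?_ (one_lt_aleph0.trans hI.unc))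
    simpa using one_lt_aleph0.trans hI.unc)
  refine ⟨ξ, ?_⟩
  intro p hp hξp
  have h1 : p ∈ Tv r y B d := by
    by_contra hcon
    have h2 := hb2 p.1 ⟨p, ⟨hp, hcon⟩, rfl⟩
    exact absurd ((hξ b (by simp)).trans_le hξp) (not_lt.mpr h2.le)
  exact h1.2 k ⟨hkd', (hξ (r d k) (by simp)).trans_le hξp⟩

/-- Families of at most `κ` sets have pseudo-intersections. -/
theorem hasPI_of_le (hI : Idx κ.ord.ToType κ) (F : Set (Set κ.ord.ToType)) (hF : #F ≤ κ)
    (hs : SIP κ F) : HasPI κ F := by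
  classical
  rcases F.eq_empty_or_nonempty with hF0 | hF0
  · refine ⟨univ, ?_, ?_⟩
    · rw [mk_univ, hI.card]
    · intro B hB
      rw [hF0] at hB
      exact absurd hB (notMem_empty B)
  obtain ⟨X, hX⟩ : ∃ X : κ.ord.ToType → Set κ.ord.ToType, range X = F := by
    have : Nonempty F := hF0.to_subtype
    obtain ⟨e⟩ : Nonempty (F ↪ κ.ord.ToType) := hF.trans hI.card.ge
    refine ⟨fun i => (Function.invFun e i).1, ?_⟩
    ext A
    constructor
    · rintro ⟨i, rfl⟩
      exact (Function.invFun e i).2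
    · intro hA
      refine ⟨e ⟨A, hA⟩, ?_⟩
      simp only [Function.leftInverse_invFun e.injective ⟨A, hA⟩]
  have h1 : ∀ ξ, ∃ a ∈ ⋂₀ (X '' Iic ξ), ξ < a := by
    intro ξ
    refine hI.unbdd_of_card _ (hs _ ?_ (mk_image_le.trans_lt (hI.smallc ξ))) ξ
    rintro _ ⟨η, _, rfl⟩
    exact hX ▸ ⟨η, rfl⟩
  choose a ha ha2 using h1
  refine ⟨range a, hI.card_of_unbdd _ (fun b => ⟨a b, ⟨b, rfl⟩, (ha2 b).le⟩), ?_⟩
  intro B hB
  rw [← hX] at hB
  obtain ⟨η, rfl⟩ := hB
  have h2 : range a \ X η ⊆ a '' Iio η := by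
    rintro _ ⟨⟨ξ, rfl⟩, hξ⟩
    refine ⟨ξ, ?_, rfl⟩
    by_contra hcon
    have hle : η ≤ ξ := not_lt.mp hcon
    exact hξ (ha ξ (X η) ⟨η, hle, rfl⟩)
  exact (mk_le_mk_of_subset h2).trans_lt (mk_image_le.trans_lt (hI.small η))

/-- Some set of subsets of `κ` is missing from the ultrapower. -/
theorem not_all_inUlt (hκ : ℵ₀ < κ) (hI : Idx κ.ord.ToType κ)
    (hsl : ∀ μ < κ, (2 : Cardinal.{u}) ^ μ < κ) (π : κ.ord.ToType → κ.ord.ToType)
    (U : Ultrafilter κ.ord.ToType) : ¬ ∀ Z : Set (Set κ.ord.ToType), InUlt U π Z := by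
  intro hall
  choose X hX using hall
  let g : Set (Set κ.ord.ToType) → ∀ x : κ.ord.ToType, Set (Set (Iio (π x))) := fun Z x =>
    {w | Subtype.val '' w ∈ X Z x}
  have hg : Function.Injective g := by
    intro Z Z' hZ
    rw [hX Z, hX Z']
    ext y
    have h1 : ∀ x, (y ∩ Iio (π x) ∈ X Z x ↔ y ∩ Iio (π x) ∈ X Z' x) := by
      intro x
      have h2 : Subtype.val '' (tr (π x) y) = y ∩ Iio (π x) := by
        ext z
        constructor
        · rintro ⟨w, hw, rfl⟩
          exact ⟨hw, w.2⟩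
        · rintro ⟨hz1, hz2⟩
          exact ⟨⟨z, hz2⟩, hz1, rfl⟩
      have h3 := Set.ext_iff.mp (congrFun hZ x) (tr (π x) y)
      simp only [g, mem_ofPred_eq, h2] at h3
      exact h3
    simp only [mem_ofPred_eq, h1]
  have h1 : #(Set (Set κ.ord.ToType)) ≤ #(Set κ.ord.ToType) := by
    refine (mk_le_of_injective hg).trans ?_
    rw [mk_pi]
    refine (prod_le_prod _ (fun _ => κ) ?_).trans ?_
    · intro x
      rw [mk_set, mk_set]
      exact (hsl _ (hsl _ (hI.small _))).le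
    · rw [prod_const', hI.card, power_self_eq hκ.le, mk_set, hI.card]
  rw [mk_set (α := Set κ.ord.ToType)] at h1
  exact absurd (cantor _) (not_lt.mpr h1)

/-- Small sets of subsets of `κ` that are missing from the ultrapower bound the invariants. -/
theorem theoremB (h : Meas κ U π) (hκ : ℵ₀ < κ) (Y : Set (Set κ.ord.ToType))
    (hY : ¬ InUlt U π Y) :
    pNum κ ≤ #Y ∧ (#Y ≤ Order.succ κ → pNum κ = Order.succ κ ∧ tNum κ = Order.succ κ) := by
  classical
  have hI := h.idx hκ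
  have hsl : ∀ μ < κ, (2 : Cardinal.{u}) ^ μ < κ := fun μ hμ => two_power_lt hI.card h μ hμ
  have hp : pNum κ ≤ #Y := by
    by_contra hcon
    rw [not_le] at hcon
    refine hY (inUlt_of_codes h hκ #Y (hcon.trans_le (pNum_le κ)) ?_ Y le_rfl)
    intro y _ _ hy B
    exact coding h hI hsl univ (by simpa using hcon) y hy.injOn B
  refine ⟨hp, ?_⟩
  intro hYs
  have hsucc : Order.succ κ ≤ #(Set κ.ord.ToType) := by
    rw [mk_set, hI.card]
    exact Order.succ_le_of_lt (cantor κ)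
  obtain ⟨T, hTd, hTs, hTP⟩ : ∃ T : (Order.succ κ).ord.ToType → Set κ.ord.ToType,
      (∀ i j, i < j → AlmostSub κ (T j) (T i)) ∧ SIP κ (range T) ∧ ¬ HasPI κ (range T) := by
    by_contra hcon
    push Not at hcon
    rcases hsucc.lt_or_eq with h1 | h1
    · exact hY (inUlt_of_codes h hκ (Order.succ κ) h1
        (fun y _ _ hy => codes_tower h hκ hcon y hy) Y hYs)
    · obtain ⟨e⟩ : Nonempty ((Order.succ κ).ord.ToType ≃ Set κ.ord.ToType) :=
        Cardinal.eq.mp (by rw [← h1]; simp)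
      refine not_all_inUlt hκ hI hsl π U ?_
      intro Z
      obtain ⟨X, hX⟩ := codes_tower h hκ hcon e e.injective (e ⁻¹' Z)
      refine ⟨X, ?_⟩
      ext v
      have h2 := hX (e.symm v) (mem_univ _)
      rw [e.apply_symm_apply] at h2
      constructor
      · intro hv
        exact h2.1 (by simpa using hv)
      · intro hv
        by_contra hcon2
        have h3 := h2.2 (by simpa using hcon2)
        obtain ⟨x, hx1, hx2⟩ := (h3.and hv).exists
        exact hx1 hx2
  have hTc : #(range T) ≤ Order.succ κ := mk_range_le.trans (by simp)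
  have hlow : ∀ F : Set (Set κ.ord.ToType), SIP κ F → ¬ HasPI κ F → Order.succ κ ≤ #F := by
    intro F hF hFP
    by_contra hcon
    exact hFP (hasPI_of_le hI F (Order.lt_succ_iff.mp (not_le.mp hcon)) hF)
  constructor
  · apply le_antisymm
    · exact hp.trans hYs
    · obtain ⟨F, hF, _, hFS, hFP⟩ := csInf_mem (s := {μ | ∃ F : Set (Set κ.ord.ToType), #F = μ ∧
        (∀ A ∈ F, #A = κ) ∧ SIP κ F ∧ ¬ HasPI κ F})
        ⟨_, range T, rfl, fun A hA => by
          have := hTs {A} (by simpa using hA) (by simpa using one_lt_aleph0.trans hκ)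
          simpa using this, hTs, hTP⟩
      have : pNum κ = #F := hF.symm
      rw [this]
      exact hlow F hFS hFP
  · apply le_antisymm
    · exact (csInf_le' ⟨_, T, rfl, hTd, hTs, hTP⟩ : tNum κ ≤ #(range T)).trans hTc
    · obtain ⟨δ, T', hT', _, hT's, hT'P⟩ := csInf_mem (s := {μ | ∃ (δ : Ordinal.{u})
        (T : δ.ToType → Set κ.ord.ToType), #(range T) = μ ∧
        (∀ i j, i < j → AlmostSub κ (T j) (T i)) ∧ SIP κ (range T) ∧ ¬ HasPI κ (range T)})
        ⟨_, _, T, rfl, hTd, hTs, hTP⟩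
      have : tNum κ = #(range T') := hT'.symm
      rw [this]
      exact hlow _ hT's hT'P

end

end Pool.Agent.EFF
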