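import Pool.Agent.Lib.MP_eff308_lc.EA.Basic

/-!
`κ`-complete ultrafilters with a least function above the constants: diagonal intersections,
subsets of `κ` as classes of functions, the well-order of the subsets of `κ` modulo `U`.
-/

open Cardinal Set Filter

namespace Pool.Agent.EFF

universe u

/-- `U` is a `κ`-complete ultrafilter on the index type and `π` is above all constants and least
such modulo `U` (it represents `κ` in the ultrapower; for normal `U` it is the identity). -/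
structure Meas {α : Type u} [LinearOrder α] (κ : Cardinal.{u}) (U : Ultrafilter α) (π : α → α) :
    Prop where
  compl : ∀ S : Set (Set α), #S < κ → (∀ s ∈ S, s ∈ U) → ⋂₀ S ∈ U
  above : ∀ ξ : α, ∀ᶠ x in (U : Filter α), ξ < π x
  normal : ∀ f : α → α, (∀ᶠ x in (U : Filter α), f x < π x) →
    ∃ ξ : α, ∀ᶠ x in (U : Filter α), f x = ξ

variable {α : Type u} [LinearOrder α] {κ : Cardinal.{u}} {U : Ultrafilter α} {π : α → α}

namespace Meas

theorem iInter (h : Meas κ U π) {ι : Type u} (hι : #ι < κ) (s : ι → Set α) (hs : ∀ i, s i ∈ U) :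
    (⋂ i, s i) ∈ U := by
  rw [← sInter_range]
  refine h.compl _ (mk_range_le.trans_lt hι) ?_
  rintro _ ⟨i, rfl⟩
  exact hs i

theorem ev_forall (h : Meas κ U π) {ι : Type u} (hι : #ι < κ) (p : ι → α → Prop)
    (hp : ∀ i, ∀ᶠ x in (U : Filter α), p i x) : ∀ᶠ x in (U : Filter α), ∀ i, p i x := by
  have := h.iInter hι (fun i => {x | p i x}) hp
  filter_upwards [this] with x hx i
  exact mem_iInter.mp hx i

theorem ev_nat (h : Meas κ U π) (hκ : ℵ₀ < κ) (p : ℕ → α → Prop)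
    (hp : ∀ i, ∀ᶠ x in (U : Filter α), p i x) : ∀ᶠ x in (U : Filter α), ∀ i, p i x := by
  have h1 : #(ULift.{u} ℕ) < κ := by
    rw [mk_uLift, mk_nat, lift_aleph0]
    exact hκ
  filter_upwards [h.ev_forall h1 (fun i x => p i.down x) (fun i => hp i.down)] with x hx i
  exact hx ⟨i⟩

theorem ev_ball (h : Meas κ U π) {ι : Type u} (s : Set ι) (hs : #s < κ) (p : ι → α → Prop)
    (hp : ∀ i ∈ s, ∀ᶠ x in (U : Filter α), p i x) :
    ∀ᶠ x in (U : Filter α), ∀ i ∈ s, p i x := by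
  have := h.ev_forall hs (fun i : s => p i) (fun i => hp i i.2)
  filter_upwards [this] with x hx i hi
  exact hx ⟨i, hi⟩

/-- Sets of size less than `κ` are null. -/
theorem small_null (h : Meas κ U π) (s : Set α) (hs : #s < κ) :
    ∀ᶠ x in (U : Filter α), x ∉ s := by
  have h1 : ∀ a ∈ s, ∀ᶠ x in (U : Filter α), x ≠ a := by
    intro a _
    filter_upwards [h.above (π a)] with x hx hxa
    rw [hxa] at hx
    exact lt_irrefl _ hx
  filter_upwards [h.ev_ball s hs (fun a x => x ≠ a) h1] with x hx hxs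
  exact hx x hxs rfl

/-- Diagonal intersection. -/
theorem diag (h : Meas κ U π) (p : α → α → Prop)
    (hp : ∀ ξ, ∀ᶠ x in (U : Filter α), p ξ x) :
    ∀ᶠ x in (U : Filter α), ∀ ξ < π x, p ξ x := by
  classical
  by_contra hcon
  rw [← Ultrafilter.eventually_not] at hcon
  have hcon2 : ∀ᶠ x in (U : Filter α), ∃ ξ, ξ < π x ∧ ¬ p ξ x := by
    filter_upwards [hcon] with x hx
    push Not at hx
    exact hx
  let f : α → α := fun x => if hx : ∃ ξ, ξ < π x ∧ ¬ p ξ x then hx.choose else x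
  have hf : ∀ᶠ x in (U : Filter α), f x < π x ∧ ¬ p (f x) x := by
    filter_upwards [hcon2] with x hx
    have : f x = hx.choose := dif_pos hx
    rw [this]
    exact hx.choose_spec
  obtain ⟨ξ, hξ⟩ := h.normal f (hf.mono fun x hx => hx.1)
  obtain ⟨x, ⟨⟨_, hx1⟩, hx2⟩, hx3⟩ := ((hf.and hξ).and (hp ξ)).exists
  rw [hx2] at hx1
  exact hx1 hx3

/-- If cofinally many points lie in `s` then `π x` is a limit of points of `s`, almost surely. -/
theorem lim (h : Meas κ U π) (s : Set α) (hs : ∀ ξ, ∃ c ∈ s, ξ < c) :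
    ∀ᶠ x in (U : Filter α), ∀ ξ < π x, ∃ c ∈ s, ξ < c ∧ c < π x := by
  refine h.diag (fun ξ x => ∃ c ∈ s, ξ < c ∧ c < π x) ?_
  intro ξ
  obtain ⟨c, hc, hξc⟩ := hs ξ
  filter_upwards [h.above c] with x hx
  exact ⟨c, hc, hξc, hx⟩

/-- Every choice of subsets of `π x` comes from a subset of `κ`. -/
theorem exists_real (h : Meas κ U π) (w : α → Set α)
    (hw : ∀ᶠ x in (U : Filter α), w x ⊆ Iio (π x)) :
    ∃ y : Set α, ∀ᶠ x in (U : Filter α), w x = y ∩ Iio (π x) := by
  refine ⟨{ξ | ∀ᶠ x in (U : Filter α), ξ ∈ w x}, ?_⟩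
  have h1 : ∀ ξ, ∀ᶠ x in (U : Filter α),
      (ξ ∈ w x ↔ ξ ∈ {ξ | ∀ᶠ x in (U : Filter α), ξ ∈ w x}) := by
    intro ξ
    by_cases hξ : ∀ᶠ x in (U : Filter α), ξ ∈ w x
    · filter_upwards [hξ] with x hx
      exact ⟨fun _ => hξ, fun _ => hx⟩
    · have := Ultrafilter.eventually_not.mpr hξ
      filter_upwards [this] with x hx
      exact ⟨fun h => absurd h hx, fun h => absurd h hξ⟩
  filter_upwards [h.diag _ h1, hw] with x hx hwx
  ext ξ
  constructor
  · intro hξ
    exact ⟨(hx ξ (hwx hξ)).mp hξ, hwx hξ⟩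
  · rintro ⟨hξ, hξ2⟩
    exact (hx ξ hξ2).mpr hξ

theorem real_unique (h : Meas κ U π) (y y' : Set α)
    (hy : ∀ᶠ x in (U : Filter α), y ∩ Iio (π x) = y' ∩ Iio (π x)) : y = y' := by
  ext ξ
  obtain ⟨x, hx1, hx2⟩ := (hy.and (h.above ξ)).exists
  constructor
  · intro hξ
    have : ξ ∈ y ∩ Iio (π x) := ⟨hξ, hx2⟩
    rw [hx1] at this
    exact this.1
  · intro hξ
    have : ξ ∈ y' ∩ Iio (π x) := ⟨hξ, hx2⟩
    rw [← hx1] at this
    exact this.1

end Meas

end Pool.Agent.EFF
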